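import Mathlib
import Pool.Graph.R_seed8.H33R3.Bom.Stmts2
import Pool.Graph.R_seed8.H33R3.Bom.I1
import Pool.Graph.R_seed8.Helper859.SP.W2
import Pool.Graph.R_seed8.Helper405.AreaA

set_option autoImplicit false

/-! The area theorem in coefficient form for `hh Y`, and two consequences.

The first proof is the one of `Pool.Agent.H33R3.Bom.HB0.hBound` (library), with the coefficient
inequality exported. -/

open Complex Metric Set Filter Topology

namespace Pool.Agent.H193.Bom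

open Pool.Agent.H33R3.Bom

theorem hs_congr {f g : ℕ → ℂ} {x : ℂ} (e : ∀ j, f j = g j) (h : HasSum f x) : HasSum g x :=
  (funext e : f = g) ▸ h

/-- area theorem: `∑ (i + 1) |b i|² ≤ ep Y` for the coefficients of `hh Y` -/
theorem areaCoef {Y : ℂ → ℂ} (hY : IsG Y) : ∃ b : ℕ → ℂ,
    (∀ N : ℕ, ∑ i ∈ Finset.range N, ((i : ℝ) + 1) * ‖b i‖ ^ 2 ≤ ep Y) ∧
    ∀ z ∈ ball (0 : ℂ) 1, HasSum (fun i => b i * z ^ (i + 1)) (hh Y z) := by
  have h0m : (0:ℂ) ∈ ball (0:ℂ) 1 := mem_ball_self one_pos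
  have hnb : ball (0:ℂ) 1 ∈ 𝓝 (0:ℂ) := isOpen_ball.mem_nhds h0m
  set a : ℕ → ℂ := fun j => ((j.factorial : ℂ))⁻¹ * iteratedDeriv j Y 0 with ha
  have hsum : ∀ z ∈ ball (0:ℂ) 1, HasSum (fun j => a j * z ^ j) (Y z) := by
    intro z hz
    have hd : DifferentiableOn ℂ Y (ball (0:ℂ) ((1 : NNReal) : ℝ)) := by simpa using hY.diff
    have hz' : z ∈ ball (0:ℂ) ((1 : NNReal) : ℝ) := by simpa using hz
    have h1 := Complex.hasSum_taylorSeries_on_ball hd hz'
    refine hs_congr (fun j => ?_) h1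
    simp only [ha, smul_eq_mul, sub_zero]
    ring
  set d : ℂ → ℂ := dslope Y 0 with hd
  have hdd : DifferentiableOn ℂ d (ball (0:ℂ) 1) := (Complex.differentiableOn_dslope hnb).mpr hY.diff
  have hYd : ∀ z, Y z = z * d z + 1 := by
    intro z
    have := sub_smul_dslope Y 0 z
    simp only [sub_zero, hY.one, smul_eq_mul] at this
    linear_combination -this
  have hder0 : deriv Y 0 = 0 := by
    have h1 : HasDerivAt Y (deriv Y 0) 0 := (hY.diff.differentiableAt hnb).hasDerivAt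
    have h2 : HasDerivAt (fun z => Y (-z)) (deriv Y 0 * (-1)) 0 := by
      have h3 : HasDerivAt Y (deriv Y 0) (-(0:ℂ)) := by rw [neg_zero]; exact h1
      exact HasDerivAt.comp (h₂ := Y) (h := fun z : ℂ => -z) 0 h3 (hasDerivAt_neg (0:ℂ))
    have h4 : (fun z => Y (-z)) =ᶠ[𝓝 (0:ℂ)] Y := by
      filter_upwards [hnb] with z hz
      exact hY.even z hz
    have h5 := h2.deriv
    rw [h4.deriv_eq] at h5
    linear_combination (1/2 : ℂ) * h5
  have ha0 : a 0 = 1 := by simp [ha, hY.one]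
  have ha1 : a 1 = 0 := by simp [ha, iteratedDeriv_one, hder0]
  have ha2 : a 2 = deriv d 0 := by
    have h1 : Y = fun z => z * d z + 1 := funext hYd
    have h2 : iteratedDeriv 2 Y 0 = iteratedDeriv 2 (fun z => z * d z) 0 := by
      have e : ∀ g : ℂ → ℂ, iteratedDeriv 2 g = iteratedDeriv 1 (deriv g) := fun g =>
        iteratedDeriv_succ'
      have e2 : deriv Y = deriv (fun z => z * d z) := by
        rw [h1]
        funext z
        rw [deriv_add_const]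
      rw [e, e, e2]
    have h3 := Pool.Agent.Helper859.SP.W2.coeff2_aux d hdd
    unfold Pool.Agent.Helper859.SP.coeff at h3
    simp only [ha]
    rw [h2, ← h3]
    ring
  -- the area theorem
  have harea : ∀ r : ℝ, 0 < r → r < 1 → ∑' j : ℕ, ((j : ℝ) - (1 : ℕ)) * ‖a j‖ ^ 2 * r ^ (2 * j) ≤ 0 := by
    intro r hr0 hr1
    refine Pool.Agent.Helper405.Area.area (h := fun z => Y z / z) (V := fun z => z) (P := Y) (m := 1)
      ?_ hY.inj ?_ differentiable_id hY.diff ?_ hsum hr0 hr1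
    · intro z hz
      have h1 : DifferentiableAt ℂ Y z := (hY.diff z hz.1).differentiableAt (isOpen_ball.mem_nhds hz.1)
      exact (h1.div differentiableAt_id hz.2).differentiableWithinAt
    · have h1 : Tendsto Y (𝓝[≠] 0) (𝓝 1) := by
        have := (hY.diff.differentiableAt hnb).continuousAt.tendsto
        rw [hY.one] at this
        exact this.mono_left nhdsWithin_le_nhds
      have h2 : Tendsto (fun z : ℂ => z⁻¹) (𝓝[≠] 0) (Bornology.cobounded ℂ) :=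
        tendsto_inv₀_nhdsNE_zero
      have h3 : Tendsto (fun z : ℂ => ‖Y z‖ * ‖z⁻¹‖) (𝓝[≠] 0) atTop := by
        refine Tendsto.pos_mul_atTop one_pos ?_ (tendsto_norm_cobounded_atTop.comp h2)
        simpa using h1.norm
      rw [← tendsto_norm_atTop_iff_cobounded]
      refine h3.congr (fun z => ?_)
      rw [norm_div, norm_inv, div_eq_mul_inv]
    · intro z hz
      have : z ≠ 0 := hz.2
      field_simp
  have hsm : ∀ r : ℝ, 0 < r → r < 1 → Summable fun j : ℕ => ((j : ℝ) - (1 : ℕ)) * ‖a j‖ ^ 2 * r ^ (2 * j) := by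
    intro r hr0 hr1
    have h1 := Pool.Agent.Helper405.Area.summable_of_hasSum hsum hr0.le hr1
    have h2 := Pool.Agent.Helper405.Area.summable_of_hasSum (Pool.Agent.Helper405.Area.hasSum_Q hsum 1) hr0.le hr1
    have h3 : ∀ᶠ j in (cofinite : Filter ℕ), ‖a j‖ * r ^ j ≤ 1 := by
      have := h1.tendsto_cofinite_zero
      exact this.eventually (ge_mem_nhds one_pos)
    refine Summable.of_norm_bounded_eventually (g := fun j => ‖((j : ℂ) - (1 : ℕ)) * a j‖ * r ^ j) h2 ?_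
    filter_upwards [h3] with j hj
    have h4 : ‖(j : ℂ) - (1 : ℕ)‖ = |(j : ℝ) - (1 : ℕ)| := by
      rw [← Real.norm_eq_abs, ← Complex.norm_real]
      push_cast
      rfl
    have h6 : ‖((j : ℝ) - (1 : ℕ)) * ‖a j‖ ^ 2 * r ^ (2 * j)‖ =
        |(j : ℝ) - (1 : ℕ)| * ‖a j‖ ^ 2 * r ^ (2 * j) := by
      rw [Real.norm_eq_abs, abs_mul, abs_mul, abs_of_nonneg (by positivity : 0 ≤ ‖a j‖ ^ 2),
        abs_of_nonneg (by positivity : 0 ≤ r ^ (2 * j))]
    have h7 : ‖((j : ℂ) - (1 : ℕ)) * a j‖ = |(j : ℝ) - (1 : ℕ)| * ‖a j‖ := by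
      rw [norm_mul, h4]
    rw [h6, h7]
    have h5 : 0 ≤ |(j : ℝ) - (1 : ℕ)| * ‖a j‖ * r ^ j := by positivity
    calc |(j : ℝ) - (1 : ℕ)| * ‖a j‖ ^ 2 * r ^ (2 * j)
        = (|(j : ℝ) - (1 : ℕ)| * ‖a j‖ * r ^ j) * (‖a j‖ * r ^ j) := by ring
      _ ≤ (|(j : ℝ) - (1 : ℕ)| * ‖a j‖ * r ^ j) * 1 := by gcongr
      _ = _ := by ring
  have hpart : ∀ (N : ℕ) (r : ℝ), 0 < r → r < 1 →
      ∑ i ∈ Finset.range N, ((i : ℝ) + 1) * ‖a (i + 2)‖ ^ 2 * r ^ (2 * (i + 2)) ≤ 1 := by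
    intro N r hr0 hr1
    have h1 := (hsm r hr0 hr1).hasSum
    have h2 := (hasSum_nat_add_iff' 2).2 h1
    have h3 : ∑ i ∈ Finset.range 2, ((i : ℝ) - (1 : ℕ)) * ‖a i‖ ^ 2 * r ^ (2 * i) = -1 := by
      rw [Finset.sum_range_succ, Finset.sum_range_one, ha0, ha1]
      simp
    rw [h3] at h2
    have h4 := sum_le_hasSum (Finset.range N) (fun i _ => by
      have : (0:ℝ) ≤ ((i + 2 : ℕ) : ℝ) - (1 : ℕ) := by push_cast; linarith [(Nat.cast_nonneg i : (0:ℝ) ≤ i)]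
      positivity) h2
    have h5 := harea r hr0 hr1
    have h6 : ∑ i ∈ Finset.range N, ((i : ℝ) + 1) * ‖a (i + 2)‖ ^ 2 * r ^ (2 * (i + 2)) =
        ∑ i ∈ Finset.range N, (((i + 2 : ℕ) : ℝ) - (1 : ℕ)) * ‖a (i + 2)‖ ^ 2 * r ^ (2 * (i + 2)) := by
      refine Finset.sum_congr rfl (fun i _ => ?_)
      push_cast
      ring
    rw [h6]
    linarith
  have hpart1 : ∀ N : ℕ, ∑ i ∈ Finset.range N, ((i : ℝ) + 1) * ‖a (i + 2)‖ ^ 2 ≤ 1 := by
    intro N
    have h1 : Tendsto (fun r : ℝ => ∑ i ∈ Finset.range N, ((i : ℝ) + 1) * ‖a (i + 2)‖ ^ 2 * r ^ (2 * (i + 2)))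
        (𝓝[<] 1) (𝓝 (∑ i ∈ Finset.range N, ((i : ℝ) + 1) * ‖a (i + 2)‖ ^ 2 * 1 ^ (2 * (i + 2)))) := by
      refine Tendsto.mono_left ?_ nhdsWithin_le_nhds
      exact (Continuous.tendsto (by fun_prop) 1)
    have h2 : ∀ᶠ r : ℝ in 𝓝[<] 1, ∑ i ∈ Finset.range N, ((i : ℝ) + 1) * ‖a (i + 2)‖ ^ 2 * r ^ (2 * (i + 2)) ≤ 1 := by
      have h3 : Ioo (0:ℝ) 1 ∈ 𝓝[<] (1:ℝ) := Ioo_mem_nhdsLT one_pos
      filter_upwards [h3] with r hr
      exact hpart N r hr.1 hr.2
    have h3 := le_of_tendsto h1 h2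
    simpa using h3
  set b : ℕ → ℂ := fun i => a (i + 2) + (if i = 0 then 1 else 0) with hb
  have hep : ep Y = 2 + 2 * (a 2).re := by
    have h1 : HasDerivAt (fun z => d z + z) (deriv d 0 + 1) 0 :=
      ((hdd.differentiableAt hnb).hasDerivAt).add (hasDerivAt_id _)
    have h2 : hh Y = fun z => d z + z := rfl
    unfold ep
    rw [h2, h1.deriv, ← ha2]
    simp
    ring
  have hbs : ∀ N : ℕ, ∑ i ∈ Finset.range N, ((i : ℝ) + 1) * ‖b i‖ ^ 2 ≤ ep Y := by
    intro N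
    have hnn : 0 ≤ ep Y := by
      rw [hep]
      have h1 := hpart1 1
      rw [Finset.sum_range_one] at h1
      simp only [Nat.cast_zero, zero_add, one_mul] at h1
      have h2 : ‖a 2‖ ≤ 1 := by
        nlinarith [norm_nonneg (a 2)]
      have h3 := Complex.abs_re_le_norm (a 2)
      have h4 := (abs_le.1 (h3.trans h2)).1
      linarith
    cases N with
    | zero => simpa using hnn
    | succ N =>
      have h1 := hpart1 (N + 1)
      rw [Finset.sum_range_succ'] at h1 ⊢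
      have h2 : ∀ i ∈ Finset.range N, (((i + 1 : ℕ) : ℝ) + 1) * ‖b (i + 1)‖ ^ 2 =
          (((i + 1 : ℕ) : ℝ) + 1) * ‖a (i + 1 + 2)‖ ^ 2 := by
        intro i _
        simp [hb]
      rw [Finset.sum_congr rfl h2]
      have h3 : ‖b 0‖ ^ 2 = ‖a 2‖ ^ 2 + 2 * (a 2).re + 1 := by
        simp only [hb, if_pos, zero_add]
        rw [← Complex.normSq_eq_norm_sq, ← Complex.normSq_eq_norm_sq, normSq_apply, normSq_apply]
        simp
        ring
      rw [h3, hep]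
      simp only [Nat.cast_zero, zero_add, one_mul] at h1 ⊢
      linarith
  refine ⟨b, hbs, ?_⟩
  intro z hz
  have hz1 : ‖z‖ < 1 := by rwa [mem_ball_zero_iff] at hz
  by_cases hz0 : z = 0
  · subst hz0
    have : hh Y 0 = 0 := by
      unfold hh
      rw [dslope_same, hder0, add_zero]
    rw [this]
    simp only [ne_eq, Nat.add_eq_zero_iff, one_ne_zero, and_false, not_false_eq_true, zero_pow, mul_zero]
    exact hasSum_zero
  · have h1 : HasSum (fun i => a (i + 2) * z ^ (i + 1)) (d z) := by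
      have h2 := (hasSum_nat_add_iff' 2).2 (hsum z hz)
      rw [Finset.sum_range_succ, Finset.sum_range_one, ha0, ha1] at h2
      have h3 := h2.mul_left z⁻¹
      have h4 : z⁻¹ * (Y z - (1 * z ^ 0 + 0 * z ^ 1)) = d z := by
        rw [hYd z]
        field_simp
        ring
      rw [h4] at h3
      refine hs_congr (fun i => ?_) h3
      rw [pow_succ z (i + 1)]
      field_simp
    have h3 : HasSum (fun i : ℕ => (if i = 0 then (1:ℂ) else 0) * z ^ (i + 1)) z := by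
      have h4 := hasSum_ite_eq (0 : ℕ) z
      refine hs_congr (fun i => ?_) h4
      by_cases hi : i = 0
      · subst hi; simp
      · simp [hi]
    have h5 := h1.add h3
    refine hs_congr (fun i => ?_) h5
    simp only [hb]
    ring

theorem ep_nonneg {Y : ℂ → ℂ} (hY : IsG Y) : 0 ≤ ep Y := by
  obtain ⟨b, hb, -⟩ := areaCoef hY
  simpa using hb 0

theorem hh_odd {Y : ℂ → ℂ} (hY : IsG Y) {z : ℂ} (hz : z ∈ ball (0 : ℂ) 1) :
    hh Y (-z) = -hh Y z := by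
  by_cases h0 : z = 0
  · subst h0
    obtain ⟨b, -, hb⟩ := areaCoef hY
    have h1 := hb 0 (mem_ball_self one_pos)
    have h2 : hh Y 0 = 0 := by
      refine h1.unique ?_
      simp only [ne_eq, Nat.add_eq_zero_iff, one_ne_zero, and_false, not_false_eq_true, zero_pow, mul_zero]
      exact hasSum_zero
    rw [neg_zero, h2, neg_zero]
  · have h1 := I1.Yeq Y hY z
    have h2 := I1.Yeq Y hY (-z)
    have h3 := hY.even z hz
    have h4 : z * (hh Y (-z) + hh Y z) = 0 := by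
      rw [h3] at h2
      linear_combination h1 - h2
    rcases mul_eq_zero.1 h4 with h | h
    · exact absurd h h0
    · linear_combination h

/-- Cauchy–Schwarz against the area theorem -/
theorem cs {b : ℕ → ℂ} {E : ℝ} (hb : ∀ N : ℕ, ∑ i ∈ Finset.range N, ((i : ℝ) + 1) * ‖b i‖ ^ 2 ≤ E)
    {w : ℕ → ℂ} {S x : ℝ} (hS : HasSum (fun i : ℕ => ‖w i‖ ^ 2 / ((i : ℝ) + 1)) S) {H : ℂ}
    (hH : HasSum (fun i => b i * w i) H) (hx : x = S) : ‖H‖ ^ 2 ≤ E * x := by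
  subst hx
  have hE : 0 ≤ E := by simpa using hb 0
  have h4 : ∀ N : ℕ, ‖∑ i ∈ Finset.range N, b i * w i‖ ^ 2 ≤ E * x := by
    intro N
    have h5 : ‖∑ i ∈ Finset.range N, b i * w i‖ ≤ ∑ i ∈ Finset.range N, ‖b i‖ * ‖w i‖ := by
      refine (norm_sum_le _ _).trans (le_of_eq ?_)
      refine Finset.sum_congr rfl (fun i _ => ?_)
      rw [norm_mul]
    have h6 : (∑ i ∈ Finset.range N, ‖b i‖ * ‖w i‖) ^ 2 ≤
        (∑ i ∈ Finset.range N, ((i : ℝ) + 1) * ‖b i‖ ^ 2) *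
          ∑ i ∈ Finset.range N, ‖w i‖ ^ 2 / ((i : ℝ) + 1) := by
      refine Finset.sum_sq_le_sum_mul_sum_of_sq_le_mul _ (fun i _ => by positivity)
        (fun i _ => by positivity) (fun i _ => le_of_eq ?_)
      have : (0:ℝ) < (i : ℝ) + 1 := by positivity
      field_simp
    calc ‖∑ i ∈ Finset.range N, b i * w i‖ ^ 2
        ≤ (∑ i ∈ Finset.range N, ‖b i‖ * ‖w i‖) ^ 2 := by gcongr
      _ ≤ _ := h6
      _ ≤ E * x := by
        refine mul_le_mul (hb N) ?_ (Finset.sum_nonneg fun i _ => by positivity) hE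
        exact sum_le_hasSum _ (fun i _ => by positivity) hS
  exact le_of_tendsto ((hH.tendsto_sum_nat.norm).pow 2) (Eventually.of_forall h4)

/-- the growth bound which uses that `h` is odd -/
theorem hBoundOdd {Y : ℂ → ℂ} (hY : IsG Y) {z : ℂ} (hz : z ∈ ball (0 : ℂ) 1) :
    ‖hh Y z‖ ^ 2 ≤ ep Y * (1 / 2 * Real.log ((1 + ‖z‖ ^ 2) / (1 - ‖z‖ ^ 2))) := by
  obtain ⟨b, hb, hs⟩ := areaCoef hY
  have hz1 : ‖z‖ < 1 := by rwa [mem_ball_zero_iff] at hz
  have hz2 : 0 < 1 - ‖z‖ ^ 2 := by nlinarith [norm_nonneg z]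
  have hzn : -z ∈ ball (0 : ℂ) 1 := by rw [mem_ball_zero_iff, norm_neg]; exact hz1
  have h1 := hs z hz
  have h2 := hs (-z) hzn
  rw [hh_odd hY hz] at h2
  have h3 := (h1.sub h2).mul_left (1 / 2 : ℂ)
  have h4 : HasSum (fun i => b i * (if Even i then z ^ (i + 1) else 0)) (hh Y z) := by
    have e : (1 / 2 : ℂ) * (hh Y z - -hh Y z) = hh Y z := by ring
    rw [e] at h3
    refine hs_congr (fun i => ?_) h3
    by_cases hi : Even i
    · rw [if_pos hi]
      have : (-z) ^ (i + 1) = - z ^ (i + 1) := (hi.add_one).neg_pow z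
      rw [this]; ring
    · rw [if_neg hi]
      have h5 : Odd i := Nat.not_even_iff_odd.1 hi
      have : (-z) ^ (i + 1) = z ^ (i + 1) := (h5.add_one).neg_pow z
      rw [this]; ring
  have habs : |‖z‖ ^ 2| < 1 := by
    rw [abs_of_nonneg (by positivity)]
    nlinarith [norm_nonneg z]
  have h5 := Real.hasSum_log_sub_log_of_abs_lt_one habs
  have h6 := h5.mul_left (1 / 2 : ℝ)
  refine cs hb (S := 1 / 2 * (Real.log (1 + ‖z‖ ^ 2) - Real.log (1 - ‖z‖ ^ 2))) ?_ h4 ?_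
  · have hinj : Function.Injective (fun k : ℕ => 2 * k) := fun a b h => by simpa using h
    rw [← hinj.hasSum_iff]
    · have e : ((fun i : ℕ => ‖(if Even i then z ^ (i + 1) else 0 : ℂ)‖ ^ 2 / ((i : ℝ) + 1)) ∘ fun k : ℕ => 2 * k) =
          fun k : ℕ => 1 / 2 * (2 * (1 / (2 * (k : ℝ) + 1)) * (‖z‖ ^ 2) ^ (2 * k + 1)) := by
        funext k
        simp only [Function.comp]
        rw [if_pos (even_two_mul k), norm_pow]
        push_cast
        rw [← pow_mul, ← pow_mul]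
        ring_nf
      rw [e]
      exact h6
    · intro j hj
      have : ¬ Even j := by
        rintro ⟨k, hk⟩
        exact hj ⟨k, by simp only; omega⟩
      simp [this]
  · rw [Real.log_div (by positivity) hz2.ne']

/-- Lipschitz bound for `h` on closed discs -/
theorem hLip {Y : ℂ → ℂ} (hY : IsG Y) {ρ : ℝ} (hρ1 : ρ < 1) {z w : ℂ}
    (hz : ‖z‖ ≤ ρ) (hw : ‖w‖ ≤ ρ) :
    ‖hh Y z - hh Y w‖ ^ 2 ≤ ep Y * (‖z - w‖ / (1 - ρ ^ 2)) ^ 2 := by
  obtain ⟨b, hb, hs⟩ := areaCoef hY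
  have hρ0 : 0 ≤ ρ := (norm_nonneg z).trans hz
  have hz2 : 0 < 1 - ρ ^ 2 := by nlinarith
  have hE : 0 ≤ ep Y := ep_nonneg hY
  have h1 := (hs z (by rw [mem_ball_zero_iff]; linarith)).sub (hs w (by rw [mem_ball_zero_iff]; linarith))
  have h2 : HasSum (fun i => b i * (z ^ (i + 1) - w ^ (i + 1))) (hh Y z - hh Y w) :=
    hs_congr (fun i => by ring) h1
  have hp : ∀ i : ℕ, ‖z ^ (i + 1) - w ^ (i + 1)‖ ≤ ((i : ℝ) + 1) * ρ ^ i * ‖z - w‖ := by
    intro i
    have h3 : z ^ (i + 1) - w ^ (i + 1) = (∑ k ∈ Finset.range (i + 1), z ^ k * w ^ (i + 1 - 1 - k)) * (z - w) :=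
      (Commute.all z w).geom_sum₂_mul (i + 1) |>.symm
    rw [h3, norm_mul]
    apply mul_le_mul_of_nonneg_right _ (norm_nonneg _)
    refine (norm_sum_le _ _).trans ?_
    have h4 : ∀ k ∈ Finset.range (i + 1), ‖z ^ k * w ^ (i + 1 - 1 - k)‖ ≤ ρ ^ i := by
      intro k hk
      rw [Finset.mem_range] at hk
      rw [norm_mul, norm_pow, norm_pow]
      calc ‖z‖ ^ k * ‖w‖ ^ (i + 1 - 1 - k) ≤ ρ ^ k * ρ ^ (i + 1 - 1 - k) := by gcongr
        _ = ρ ^ i := by rw [← pow_add]; congr 1; omega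
    refine (Finset.sum_le_sum h4).trans (le_of_eq ?_)
    rw [Finset.sum_const, Finset.card_range, nsmul_eq_mul]
    push_cast
    ring
  have h4 : ∀ N : ℕ, ‖∑ i ∈ Finset.range N, b i * (z ^ (i + 1) - w ^ (i + 1))‖ ^ 2 ≤
      ep Y * (‖z - w‖ / (1 - ρ ^ 2)) ^ 2 := by
    intro N
    have h5 : ‖∑ i ∈ Finset.range N, b i * (z ^ (i + 1) - w ^ (i + 1))‖ ≤
        ‖z - w‖ * ∑ i ∈ Finset.range N, ‖b i‖ * (((i : ℝ) + 1) * ρ ^ i) := by
      refine (norm_sum_le _ _).trans ?_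
      rw [Finset.mul_sum]
      refine Finset.sum_le_sum (fun i _ => ?_)
      rw [norm_mul]
      calc ‖b i‖ * ‖z ^ (i + 1) - w ^ (i + 1)‖ ≤ ‖b i‖ * (((i : ℝ) + 1) * ρ ^ i * ‖z - w‖) :=
            mul_le_mul_of_nonneg_left (hp i) (norm_nonneg _)
        _ = _ := by ring
    have h6 : (∑ i ∈ Finset.range N, ‖b i‖ * (((i : ℝ) + 1) * ρ ^ i)) ^ 2 ≤
        (∑ i ∈ Finset.range N, ((i : ℝ) + 1) * ‖b i‖ ^ 2) *
          ∑ i ∈ Finset.range N, ((i : ℝ) + 1) * (ρ ^ 2) ^ i := by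
      refine Finset.sum_sq_le_sum_mul_sum_of_sq_le_mul _ (fun i _ => by positivity)
        (fun i _ => by positivity) (fun i _ => le_of_eq ?_)
      rw [← pow_mul]
      ring
    have hgeo : ∑ i ∈ Finset.range N, ((i : ℝ) + 1) * (ρ ^ 2) ^ i ≤ 1 / (1 - ρ ^ 2) ^ 2 := by
      have h7 := hasSum_choose_mul_geometric_of_norm_lt_one (𝕜 := ℝ) 1 (r := ρ ^ 2) (by
        rw [Real.norm_eq_abs, abs_of_nonneg (by positivity)]; nlinarith)
      have h8 := sum_le_hasSum (Finset.range N) (fun i _ => by positivity) h7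
      refine le_trans (le_of_eq ?_) h8
      refine Finset.sum_congr rfl (fun i _ => ?_)
      simp
    calc ‖∑ i ∈ Finset.range N, b i * (z ^ (i + 1) - w ^ (i + 1))‖ ^ 2
        ≤ (‖z - w‖ * ∑ i ∈ Finset.range N, ‖b i‖ * (((i : ℝ) + 1) * ρ ^ i)) ^ 2 := by gcongr
      _ = ‖z - w‖ ^ 2 * (∑ i ∈ Finset.range N, ‖b i‖ * (((i : ℝ) + 1) * ρ ^ i)) ^ 2 := by ring
      _ ≤ ‖z - w‖ ^ 2 * ((∑ i ∈ Finset.range N, ((i : ℝ) + 1) * ‖b i‖ ^ 2) *
          ∑ i ∈ Finset.range N, ((i : ℝ) + 1) * (ρ ^ 2) ^ i) := by gcongr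
      _ ≤ ‖z - w‖ ^ 2 * (ep Y * (1 / (1 - ρ ^ 2) ^ 2)) := by
        gcongr
        exact hb N
      _ = _ := by
        field_simp
  exact le_of_tendsto ((h2.tendsto_sum_nat.norm).pow 2) (Eventually.of_forall h4)

end Pool.Agent.H193.Bom
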