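import Pool.Agent.H193.Bom.A1

set_option autoImplicit false

/-! Maximum principle: the version of `Pool.Agent.H827R3.Bom2.taskG2` with `sqrt (log)`. -/

namespace Pool.Agent.H193.Bom

open Complex Metric Set Filter Topology Pool.Agent.H33R3.Bom Pool.Agent.H827R3.Bom2

theorem uBound {Y : ℂ → ℂ} (hY : IsG Y) {z₀ : ℂ} (hz₀ : z₀ ∈ ball (0 : ℂ) 1) (hhalf : 1 / 2 ≤ ‖z₀‖)
    {σ : ℝ} (hσ0 : 0 ≤ σ) (hσ : La ((1 + ‖z₀‖) / 2) ≤ σ ^ 2)
    (hsmall : ep Y ≤ (1 - ((1 + ‖z₀‖) / 2) ^ 2) ^ 2) :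
    ‖UU Y z₀‖ * ‖z₀ ^ 2 + (((1 + ‖z₀‖) / 2 : ℝ) : ℂ) ^ 2‖ * (1 - ‖z₀‖) ≤
      43 * ep Y * (1 + σ) := by
  have hball : ball (0 : ℂ) 1 ∈ 𝓝 (0 : ℂ) := ball_mem_nhds _ one_pos
  have hhd : DifferentiableOn ℂ (hh Y) (ball 0 1) := by
    have h1 : DifferentiableOn ℂ (dslope Y 0) (ball 0 1) :=
      (Complex.differentiableOn_dslope hball).2 hY.diff
    exact h1.add differentiableOn_id
  have hUd : DifferentiableOn ℂ (UU Y) (ball 0 1) := by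
    refine hhd.add ?_
    intro z hz
    have h1 : DifferentiableAt ℂ (hh Y) ((starRingEnd ℂ) z) := by
      apply (hhd _ _).differentiableAt
      · apply isOpen_ball.mem_nhds
        rw [mem_ball_zero_iff] at hz ⊢
        rwa [Complex.norm_conj]
      · rw [mem_ball_zero_iff] at hz ⊢
        rwa [Complex.norm_conj]
    have h2 := h1.conj_conj
    have h3 : DifferentiableAt ℂ ((starRingEnd ℂ) ∘ (hh Y) ∘ (starRingEnd ℂ)) z := by
      have := h2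
      simpa using this
    exact h3.differentiableWithinAt
  have hz₀' : ‖z₀‖ < 1 := by simpa using hz₀
  obtain ⟨r, hr⟩ : ∃ r : ℝ, r = (1 + ‖z₀‖) / 2 := ⟨_, rfl⟩
  rw [← hr] at hσ hsmall ⊢
  obtain ⟨s, hs⟩ : ∃ s : ℝ, s = ‖z₀‖ := ⟨_, rfl⟩
  rw [← hs] at hr hz₀' hhalf ⊢
  have hr1 : r < 1 := by rw [hr]; linarith
  have hrρ : s < r := by rw [hr]; linarith
  have hr0 : 0 < r := by linarith
  have hep0 := ep_nonneg hY
  have h1r : 0 < 1 - r ^ 2 := by nlinarith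
  have hne : ∀ z ∈ ball (0 : ℂ) 1, (1 : ℂ) - z ^ 2 ≠ 0 := by
    intro z hz h0
    have h1 := one_sub_le z
    rw [h0, norm_zero] at h1
    have h2 : ‖z‖ < 1 := by simpa using hz
    nlinarith [norm_nonneg z]
  -- the function
  have hgd : DifferentiableOn ℂ (fun z => UU Y z * (z ^ 4 - (r : ℂ) ^ 4) / (1 - z ^ 2)) (ball 0 1) :=
    (hUd.mul ((differentiableOn_pow 4).sub (differentiableOn_const _))).div
      ((differentiableOn_const _).sub (differentiableOn_pow 2)) hne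
  have hcl : DiffContOnCl ℂ (fun z => UU Y z * (z ^ 4 - (r : ℂ) ^ 4) / (1 - z ^ 2)) (ball 0 r) := by
    apply DifferentiableOn.diffContOnCl
    apply hgd.mono
    rw [closure_ball _ hr0.ne']
    exact closedBall_subset_ball hr1
  have hmax := Complex.norm_le_of_forall_mem_frontier_norm_le (U := ball (0 : ℂ) r)
    isBounded_ball hcl (C := 8 * ep Y * (1 + σ) / (1 - r ^ 2)) (by
      intro z hz
      rw [frontier_ball _ hr0.ne', mem_sphere_zero_iff_norm] at hz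
      have hzb : z ∈ ball (0 : ℂ) 1 := by rw [mem_ball_zero_iff, hz]; exact hr1
      have h := fBound hY hzb hσ0 (by rw [hz]; exact hσ) (by rw [hz]; exact hsmall)
      rw [hz] at h
      have hp : 0 < ‖(1 : ℂ) - z ^ 2‖ := norm_pos_iff.2 (hne z hzb)
      rw [norm_div, norm_mul, norm_pow_sub hz, div_le_div_iff₀ hp h1r]
      have h6 := im_le z
      have h7 := one_sub_le z
      rw [hz] at h7
      have h8 : ep Y * (1 / 2 + σ) * |z.im| + ep Y * (1 - r ^ 2) ≤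
          2 * ep Y * (1 + σ) * ‖(1 : ℂ) - z ^ 2‖ := by
        have e1 : ep Y * (1 / 2 + σ) * |z.im| ≤ ep Y * (1 / 2 + σ) * ‖(1 : ℂ) - z ^ 2‖ :=
          mul_le_mul_of_nonneg_left h6 (by positivity)
        have e2 : ep Y * (1 - r ^ 2) ≤ ep Y * ‖(1 : ℂ) - z ^ 2‖ :=
          mul_le_mul_of_nonneg_left h7 hep0
        have e3 : 0 ≤ ep Y * ‖(1 : ℂ) - z ^ 2‖ := by positivity
        have e4 : 0 ≤ ep Y * σ * ‖(1 : ℂ) - z ^ 2‖ := by positivity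
        linarith
      have h9 := h.trans h8
      have h10 : 0 ≤ ‖UU Y z‖ * |z.re * z.im| * (1 - r ^ 2) := by positivity
      have h11 : r ^ 2 ≤ 1 := by nlinarith
      have h12 : ‖UU Y z‖ * (4 * r ^ 2 * |z.re * z.im|) * (1 - r ^ 2) =
          4 * (r ^ 2 * (‖UU Y z‖ * |z.re * z.im| * (1 - r ^ 2))) := by ring
      rw [h12]
      have h13 : r ^ 2 * (‖UU Y z‖ * |z.re * z.im| * (1 - r ^ 2)) ≤
          1 * (‖UU Y z‖ * |z.re * z.im| * (1 - r ^ 2)) := mul_le_mul_of_nonneg_right h11 h10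
      linarith) (z := z₀) (by
      rw [closure_ball _ hr0.ne', mem_closedBall_zero_iff, ← hs]; exact hrρ.le)
  have hp0 : 0 < ‖(1 : ℂ) - z₀ ^ 2‖ := norm_pos_iff.2 (hne z₀ hz₀)
  have hfac : z₀ ^ 4 - (r : ℂ) ^ 4 = (z₀ ^ 2 - (r : ℂ) ^ 2) * (z₀ ^ 2 + (r : ℂ) ^ 2) := by ring
  rw [norm_div, norm_mul, hfac, norm_mul] at hmax
  have h20 : r ^ 2 - s ^ 2 ≤ ‖z₀ ^ 2 - (r : ℂ) ^ 2‖ := by
    have := norm_sub_norm_le ((r : ℂ) ^ 2) (z₀ ^ 2)
    rw [norm_sub_rev] at this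
    rw [norm_pow, norm_pow, ← hs, Complex.norm_real, Real.norm_eq_abs, abs_of_pos hr0] at this
    exact this
  have h21 : ‖(1 : ℂ) - z₀ ^ 2‖ ≤ 4 * ‖z₀ ^ 2 - (r : ℂ) ^ 2‖ := by
    have h22 : (1 : ℂ) - z₀ ^ 2 = ((1 - r ^ 2 : ℝ) : ℂ) - (z₀ ^ 2 - (r : ℂ) ^ 2) := by
      push_cast; ring
    have h23 : ‖(1 : ℂ) - z₀ ^ 2‖ ≤ (1 - r ^ 2) + ‖z₀ ^ 2 - (r : ℂ) ^ 2‖ := by
      rw [h22]
      refine (norm_sub_le _ _).trans ?_
      rw [Complex.norm_real, Real.norm_eq_abs, abs_of_pos h1r]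
    have h24 : 1 - r ^ 2 ≤ 3 * (r ^ 2 - s ^ 2) := by rw [hr]; nlinarith
    linarith
  rw [div_le_div_iff₀ hp0 h1r] at hmax
  set u := ‖UU Y z₀‖ with hu
  set p := ‖z₀ ^ 2 - (r : ℂ) ^ 2‖ with hpdef
  set q := ‖z₀ ^ 2 + (r : ℂ) ^ 2‖ with hq
  set w := ‖(1 : ℂ) - z₀ ^ 2‖ with hw
  have hu0 : 0 ≤ u := norm_nonneg _
  have hq0 : 0 ≤ q := norm_nonneg _
  have hpp : 0 < p := by nlinarith
  have h30 : u * (p * q) * (1 - r ^ 2) ≤ 8 * ep Y * (1 + σ) * (4 * p) :=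
    hmax.trans (mul_le_mul_of_nonneg_left h21 (by positivity))
  have h31 : u * q * (1 - r ^ 2) ≤ 32 * ep Y * (1 + σ) := by
    have h32 : p * (u * q * (1 - r ^ 2)) ≤ p * (32 * ep Y * (1 + σ)) := by
      calc p * (u * q * (1 - r ^ 2)) = u * (p * q) * (1 - r ^ 2) := by ring
        _ ≤ _ := h30
        _ = _ := by ring
    exact le_of_mul_le_mul_left h32 hpp
  have h33 : 3 / 4 * (1 - s) ≤ 1 - r ^ 2 := by rw [hr]; nlinarith
  have h34 : u * q * (3 / 4 * (1 - s)) ≤ 32 * ep Y * (1 + σ) :=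
    (mul_le_mul_of_nonneg_left h33 (by positivity)).trans h31
  have h36 : 0 ≤ ep Y * (1 + σ) := mul_nonneg hep0 (by linarith)
  linarith

end Pool.Agent.H193.Bom
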