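import Pool.Agent.H193.Bom.A2

set_option autoImplicit false

/-! Elementary lemmas for the coefficient estimate. -/

namespace Pool.Agent.H193.Bom

open Complex Metric Set Filter Topology Pool.Agent.H33R3.Bom

open scoped ComplexConjugate

/-- `Re (1 + i L) ^ (-m)` is at least `1 - m (m + 1) L² / 2` -/
theorem pow_re_aux (L : ℝ) (m : ℕ) :
    1 - (m : ℝ) * (m + 1) / 2 * L ^ 2 ≤ (((1 + (L : ℂ) * I)⁻¹) ^ m).re ∧
      |(((1 + (L : ℂ) * I)⁻¹) ^ m).im| ≤ m * |L| := by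
  have hw : (1 + (L : ℂ) * I) ≠ 0 := by
    intro h
    have := congrArg Complex.re h
    simp at this
  have hn : ‖(1 + (L : ℂ) * I)⁻¹‖ ≤ 1 := by
    rw [norm_inv]
    apply inv_le_one_of_one_le₀
    have h1 := Complex.abs_re_le_norm (1 + (L : ℂ) * I)
    simpa using h1
  induction m with
  | zero => simp
  | succ m ih =>
    obtain ⟨h1, h2⟩ := ih
    set w := (1 + (L : ℂ) * I)⁻¹ with hwd
    have hp : ‖w ^ (m + 1)‖ ≤ 1 := by
      rw [norm_pow]; exact pow_le_one₀ (norm_nonneg _) hn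
    have e : w ^ m = w ^ (m + 1) * (1 + (L : ℂ) * I) := by
      rw [pow_succ, mul_assoc, hwd, inv_mul_cancel₀ hw, mul_one]
    have er : (w ^ m).re = (w ^ (m + 1)).re - L * (w ^ (m + 1)).im := by
      rw [e]; simp [mul_re]; ring
    have ei : (w ^ m).im = (w ^ (m + 1)).im + L * (w ^ (m + 1)).re := by
      rw [e]; simp [mul_im]; ring
    have hre : |(w ^ (m + 1)).re| ≤ 1 := (Complex.abs_re_le_norm _).trans hp
    have him : |(w ^ (m + 1)).im| ≤ ((m + 1 : ℕ) : ℝ) * |L| := by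
      have e1 : (w ^ (m + 1)).im = (w ^ m).im - L * (w ^ (m + 1)).re := by linarith
      rw [e1]
      calc |(w ^ m).im - L * (w ^ (m + 1)).re| ≤ |(w ^ m).im| + |L * (w ^ (m + 1)).re| := abs_sub _ _
        _ ≤ m * |L| + |L| * 1 := by
            rw [abs_mul]
            gcongr
        _ = _ := by push_cast; ring
    refine ⟨?_, him⟩
    have e2 : (w ^ (m + 1)).re = (w ^ m).re + L * (w ^ (m + 1)).im := by linarith
    rw [e2]
    have h3 : -(L ^ 2 * (m + 1)) ≤ L * (w ^ (m + 1)).im := by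
      have h4 : |L * (w ^ (m + 1)).im| ≤ L ^ 2 * (m + 1) := by
        rw [abs_mul, ← sq_abs L]
        calc |L| * |(w ^ (m + 1)).im| ≤ |L| * (((m + 1 : ℕ) : ℝ) * |L|) := by gcongr
          _ = _ := by push_cast; ring
      exact (abs_le.1 h4).1
    push_cast
    linarith

/-- geometry of the circle: the distance to `± r` is controlled by `|1 - z²|` -/
theorem near_pm {z : ℂ} {r : ℝ} (hr1 : r < 1) (hz : ‖z‖ = r) :
    ‖z - (r : ℂ)‖ ≤ 2 * ‖1 - z ^ 2‖ ∨ ‖z + (r : ℂ)‖ ≤ 2 * ‖1 - z ^ 2‖ := by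
  have hfac : ‖1 - z ^ 2‖ = ‖1 - z‖ * ‖1 + z‖ := by
    rw [← norm_mul]; congr 1; ring
  have hr : ‖(1 : ℂ) - (r : ℂ)‖ = 1 - r := by
    have : (1 : ℂ) - (r : ℂ) = ((1 - r : ℝ) : ℂ) := by push_cast; rfl
    rw [this, Complex.norm_real, Real.norm_eq_abs, abs_of_pos (by linarith)]
  rcases le_total 0 z.re with h | h
  · left
    have h1 : 1 ≤ ‖1 + z‖ := by
      have := Complex.abs_re_le_norm (1 + z)
      have e : (1 + z).re = 1 + z.re := by simp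
      rw [e, abs_of_nonneg (by linarith)] at this
      linarith
    have h2 : ‖1 - z‖ ≤ ‖1 - z ^ 2‖ := by
      rw [hfac]
      nlinarith [norm_nonneg (1 - z)]
    have h3 : 1 - r ≤ ‖1 - z‖ := by
      have := norm_sub_norm_le (1 : ℂ) z
      rw [norm_one, hz] at this
      exact this
    have h4 : ‖z - (r : ℂ)‖ ≤ ‖1 - z‖ + ‖(1 : ℂ) - (r : ℂ)‖ := by
      have e : z - (r : ℂ) = (1 - (r : ℂ)) - (1 - z) := by ring
      rw [e]
      have := norm_sub_le ((1 : ℂ) - (r : ℂ)) (1 - z)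
      linarith
    rw [hr] at h4
    linarith
  · right
    have h1 : 1 ≤ ‖1 - z‖ := by
      have := Complex.abs_re_le_norm (1 - z)
      have e : (1 - z).re = 1 - z.re := by simp
      rw [e, abs_of_nonneg (by linarith)] at this
      linarith
    have h2 : ‖1 + z‖ ≤ ‖1 - z ^ 2‖ := by
      rw [hfac]
      nlinarith [norm_nonneg (1 + z)]
    have h3 : 1 - r ≤ ‖1 + z‖ := by
      have := norm_sub_norm_le (1 : ℂ) (-z)
      rw [norm_one, norm_neg, hz, sub_neg_eq_add] at this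
      exact this
    have h4 : ‖z + (r : ℂ)‖ ≤ ‖1 + z‖ + ‖(1 : ℂ) - (r : ℂ)‖ := by
      have e : z + (r : ℂ) = (1 + z) - (1 - (r : ℂ)) := by ring
      rw [e]
      exact norm_sub_le _ _
    rw [hr] at h4
    linarith

/-- Lipschitz bound for `z h z` -/
theorem zhLip {Y : ℂ → ℂ} (hY : IsG Y) {r D e t : ℝ} (hr0 : 0 < r) (hr1 : r < 1)
    (hD : 1 / D ≤ 1 - r ^ 2) (hD0 : 0 < D) (he : 0 ≤ e) (he2 : ep Y = e ^ 2) (ht : t ≤ D)
    (hb : ∀ z : ℂ, ‖z‖ = r → ‖hh Y z‖ ≤ e * t) {z w : ℂ} (hz : ‖z‖ = r) (hw : ‖w‖ = r) :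
    ‖z * hh Y z - w * hh Y w‖ ≤ 2 * D * e * ‖z - w‖ := by
  have h1 := hLip hY (ρ := r) hr1 (z := z) (w := w) hz.le hw.le
  have hq : 0 < 1 - r ^ 2 := lt_of_lt_of_le (by positivity) hD
  have h2 : ‖hh Y z - hh Y w‖ ≤ e * (‖z - w‖ / (1 - r ^ 2)) := by
    rw [he2, ← mul_pow] at h1
    exact abs_le_of_sq_le_sq' h1 (by positivity) |>.2
  have h3 : ‖z - w‖ / (1 - r ^ 2) ≤ ‖z - w‖ * D := by
    rw [div_le_iff₀ hq]
    have : 1 ≤ D * (1 - r ^ 2) := by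
      rw [div_le_iff₀ hD0] at hD; linarith
    nlinarith [norm_nonneg (z - w)]
  have e1 : z * hh Y z - w * hh Y w = (z - w) * hh Y z + w * (hh Y z - hh Y w) := by ring
  rw [e1]
  refine (norm_add_le _ _).trans ?_
  rw [norm_mul, norm_mul, hw]
  have h4 : ‖z - w‖ * ‖hh Y z‖ ≤ ‖z - w‖ * (e * D) := by
    apply mul_le_mul_of_nonneg_left _ (norm_nonneg _)
    exact (hb z hz).trans (mul_le_mul_of_nonneg_left ht he)
  have h5 : r * ‖hh Y z - hh Y w‖ ≤ 1 * (e * (‖z - w‖ * D)) := by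
    apply mul_le_mul hr1.le _ (norm_nonneg _) (by norm_num)
    exact h2.trans (mul_le_mul_of_nonneg_left h3 he)
  linarith

/-- coefficients of `1 / (w - z²)²` -/
theorem coeff_kw (w : ℂ) (hw : 1 ≤ ‖w‖) (m : ℕ) :
    coeff (2 * m) (fun z : ℂ => 1 / (w - z ^ 2) ^ 2) = (m + 1) * (w⁻¹) ^ (m + 2) := by
  have hw0 : w ≠ 0 := by
    intro h; rw [h, norm_zero] at hw; linarith
  have hone : ∀ᶠ u in 𝓝 (0 : ℂ),
      HasSum (fun k : ℕ => ((k : ℂ) + 1) * (w⁻¹) ^ (k + 2) * u ^ k) (1 / (w - u) ^ 2) := by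
    filter_upwards [Metric.ball_mem_nhds (0 : ℂ) one_pos] with u hu
    have hu1 : ‖u‖ < 1 := by simpa using hu
    have hx : ‖u * w⁻¹‖ < 1 := by
      rw [norm_mul, norm_inv]
      calc ‖u‖ * ‖w‖⁻¹ ≤ ‖u‖ * 1 := by
            apply mul_le_mul_of_nonneg_left _ (norm_nonneg _)
            exact inv_le_one_of_one_le₀ hw
        _ < 1 := by linarith
    have h := hasSum_choose_mul_geometric_of_norm_lt_one 1 hx
    have h2 := h.mul_left ((w⁻¹) ^ 2)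
    have hne : w - u ≠ 0 := by
      intro h0
      have : u = w := by linear_combination -h0
      rw [this] at hu1
      linarith
    have he : (fun k : ℕ => ((k : ℂ) + 1) * (w⁻¹) ^ (k + 2) * u ^ k) =
        fun k : ℕ => (w⁻¹) ^ 2 * ((((k + 1).choose 1 : ℕ) : ℂ) * (u * w⁻¹) ^ k) := by
      funext k
      simp only [Nat.choose_one_right, mul_pow]
      push_cast
      ring
    have he2 : 1 / (w - u) ^ 2 = (w⁻¹) ^ 2 * (1 / (1 - u * w⁻¹) ^ (1 + 1)) := by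
      have : 1 - u * w⁻¹ = (w - u) * w⁻¹ := by
        rw [sub_mul, mul_inv_cancel₀ hw0]
      rw [this]
      have h11 : (1 + 1 : ℕ) = 2 := rfl
      rw [h11]
      have hwi : w⁻¹ ≠ 0 := inv_ne_zero hw0
      field_simp
    rw [he, he2]
    exact h2
  have hg : AnalyticAt ℂ (fun u : ℂ => 1 / (w - u) ^ 2) 0 := by
    apply AnalyticAt.div analyticAt_const
    · fun_prop
    · simpa using hw0
  have h2 := I1.coeff_sq hg m
  rw [h2]
  exact I1.hasSum_iff_at hone m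

/-- coefficient bound -/
theorem coefBd {Φ : ℂ → ℂ} (hd : DifferentiableOn ℂ Φ (ball 0 1)) {r D B : ℝ} (hr0 : 0 < r)
    (hr1 : r < 1) (hB : 0 ≤ B) (hD0 : 0 < D) (hD : 1 / D ≤ 1 - r ^ 2) {m : ℕ} (hm : 1 / 4 ≤ r ^ (2 * m))
    (h : ∀ z : ℂ, ‖z‖ = r → ‖Φ z‖ ≤ B / ‖1 - z ^ 2‖ ^ 2) :
    ‖coeff (2 * m) Φ‖ ≤ 4 * B * D := by
  have key := taskL Φ r B 0 hd hr0 hr1 (fun z hz => by rw [add_zero]; exact h z hz) (2 * m)
  rw [add_zero] at key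
  have h4 : 1 / D ≤ 1 - r ^ 4 := by
    have : r ^ 4 ≤ r ^ 2 := pow_le_pow_of_le_one hr0.le hr1.le (by norm_num)
    linarith
  have h4' : 0 < 1 - r ^ 4 := lt_of_lt_of_le (by positivity) h4
  have h5 : B / (1 - r ^ 4) ≤ B * D := by
    rw [div_le_iff₀ h4']
    have h6 : 1 ≤ D * (1 - r ^ 4) := by
      rw [div_le_iff₀ hD0] at h4
      linarith
    nlinarith
  have h8 := key.trans h5
  have h9 : ‖coeff (2 * m) Φ‖ * (1 / 4) ≤ ‖coeff (2 * m) Φ‖ * r ^ (2 * m) :=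
    mul_le_mul_of_nonneg_left hm (norm_nonneg _)
  linarith

/-- coefficients of a function which commutes with the conjugation are real -/
theorem coeff_im_zero {g : ℂ → ℂ} (hg : DifferentiableOn ℂ g (ball 0 1))
    (hc : ∀ z ∈ ball (0 : ℂ) 1, conj (g (conj z)) = g z) (m : ℕ) : (coeff m g).im = 0 := by
  have h1 := I1.coeff_conj (I1.an hg) m
  have h2 := I1.coeff_congr hc m
  rw [h2] at h1
  exact Complex.conj_eq_iff_im.1 h1.symm

theorem b4_aux {Wn Ln qn p T D e t : ℝ} (hT : 0 < T) (hp : 0 < p) (h1 : T ≤ 41 * p)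
    (hDT : 1 ≤ D * T) (hD : 0 < D) (he : 0 ≤ e) (ht : 0 ≤ t) (hW : Wn ≤ 4 * D * e * T)
    (hL0 : 0 ≤ Ln) (hL : Ln ≤ e * t) (hq0 : 0 ≤ qn) (hq : qn ≤ 3 * 41 ^ 2 * T ^ 2) :
    Wn * (Ln * qn / (p ^ 3 * T ^ 3)) ≤ 12 * 41 ^ 5 * (D ^ 2 * (e ^ 2 * t)) / T ^ 2 := by
  have hip : 1 / p ≤ 41 / T := by rw [div_le_div_iff₀ hp hT]; linarith
  have hip3 : (1 / p) ^ 3 ≤ (41 / T) ^ 3 := by gcongr
  have e1 : Ln * qn / (p ^ 3 * T ^ 3) = (Ln * qn) * ((1 / p) ^ 3 * (1 / T) ^ 3) := by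
    field_simp
  have e2 : Ln * qn ≤ (e * t) * (3 * 41 ^ 2 * T ^ 2) := mul_le_mul hL hq hq0 (by positivity)
  have e3 : (1 / p) ^ 3 * (1 / T) ^ 3 ≤ (41 / T) ^ 3 * (1 / T) ^ 3 :=
    mul_le_mul_of_nonneg_right hip3 (by positivity)
  have e4 : (Ln * qn) * ((1 / p) ^ 3 * (1 / T) ^ 3) ≤
      ((e * t) * (3 * 41 ^ 2 * T ^ 2)) * ((41 / T) ^ 3 * (1 / T) ^ 3) :=
    mul_le_mul e2 e3 (by positivity) (by positivity)
  rw [e1]
  have e5 : Wn * ((Ln * qn) * ((1 / p) ^ 3 * (1 / T) ^ 3)) ≤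
      (4 * D * e * T) * (((e * t) * (3 * 41 ^ 2 * T ^ 2)) * ((41 / T) ^ 3 * (1 / T) ^ 3)) :=
    mul_le_mul hW e4 (by positivity) (by positivity)
  refine e5.trans ?_
  have e6 : (4 * D * e * T) * (((e * t) * (3 * 41 ^ 2 * T ^ 2)) * ((41 / T) ^ 3 * (1 / T) ^ 3)) =
      (12 * 41 ^ 5 * (D * (e ^ 2 * t)) / T ^ 3) * 1 := by
    field_simp
    ring
  have e7 : 12 * 41 ^ 5 * (D ^ 2 * (e ^ 2 * t)) / T ^ 2 =
      (12 * 41 ^ 5 * (D * (e ^ 2 * t)) / T ^ 3) * (D * T) := by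
    field_simp
  rw [e6, e7]
  exact mul_le_mul_of_nonneg_left hDT (by positivity)

theorem b5_aux {Kn an p y T D e : ℝ} (hT : 0 < T) (hp : 0 < p) (hy : 0 < y) (h1 : T ≤ 41 * p)
    (h2 : T ≤ 41 * y) (hK0 : 0 ≤ Kn) (hK : Kn ≤ 2584 * (D * e * T))
    (ha : an ≤ 2 / (y * p ^ 3) + 1 / (y ^ 2 * p ^ 2)) (hD : 0 < D) (he : 0 ≤ e) :
    Kn ^ 2 * an ≤ 3 * 41 ^ 4 * 2584 ^ 2 * (D ^ 2 * e ^ 2) / T ^ 2 := by
  have hip : 1 / p ≤ 41 / T := by rw [div_le_div_iff₀ hp hT]; linarith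
  have hiy : 1 / y ≤ 41 / T := by rw [div_le_div_iff₀ hy hT]; linarith
  have e1 : 2 / (y * p ^ 3) = 2 * ((1 / y) * (1 / p) ^ 3) := by field_simp
  have e2 : 1 / (y ^ 2 * p ^ 2) = (1 / y) ^ 2 * (1 / p) ^ 2 := by field_simp
  have e3 : 2 / (y * p ^ 3) + 1 / (y ^ 2 * p ^ 2) ≤ 3 * (41 / T) ^ 4 := by
    rw [e1, e2]
    calc 2 * ((1 / y) * (1 / p) ^ 3) + (1 / y) ^ 2 * (1 / p) ^ 2
        ≤ 2 * ((41 / T) * (41 / T) ^ 3) + (41 / T) ^ 2 * (41 / T) ^ 2 := by gcongr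
      _ = _ := by ring
  have e4 : Kn ^ 2 ≤ (2584 * (D * e * T)) ^ 2 := by gcongr
  have e5 : Kn ^ 2 * an ≤ Kn ^ 2 * (3 * (41 / T) ^ 4) :=
    mul_le_mul_of_nonneg_left (ha.trans e3) (by positivity)
  have e6 : Kn ^ 2 * (3 * (41 / T) ^ 4) ≤ (2584 * (D * e * T)) ^ 2 * (3 * (41 / T) ^ 4) :=
    mul_le_mul_of_nonneg_right e4 (by positivity)
  refine (e5.trans e6).trans (le_of_eq ?_)
  field_simp

theorem b2_aux {U S p T D e t r : ℝ} (hr0 : 0 ≤ r) (hr1 : r ≤ 1) (hT : 0 < T) (hp : 0 < p)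
    (h1 : T ≤ 41 * p) (hDT : 1 ≤ D * T) (hDS : 4 / 5 ≤ D * S) (hD : 0 < D) (hU0 : 0 ≤ U)
    (hS0 : 0 < S) (hsum : 1 ≤ T + S) (he : 0 ≤ e) (ht : 0 ≤ t) (hU : U * S ≤ 129 * (e ^ 2 * t * D)) :
    r * U / p ^ 3 ≤ 291 * 41 ^ 3 * (D ^ 2 * (e ^ 2 * t)) / T ^ 2 := by
  have h1' : 1 ≤ 9 / 4 * (D * S * T) := by
    have e1 : S * 1 ≤ S * (D * T) := mul_le_mul_of_nonneg_left hDT hS0.le
    have e2 : 4 / 5 * T ≤ (D * S) * T := mul_le_mul_of_nonneg_right hDS hT.le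
    linarith
  have h2 : U ≤ 291 * (D ^ 2 * (e ^ 2 * t)) * T := by
    calc U = U * 1 := by ring
      _ ≤ U * (9 / 4 * (D * S * T)) := mul_le_mul_of_nonneg_left h1' hU0
      _ = 9 / 4 * D * T * (U * S) := by ring
      _ ≤ 9 / 4 * D * T * (129 * (e ^ 2 * t * D)) := by
        apply mul_le_mul_of_nonneg_left hU (by positivity)
      _ = 290.25 * ((D ^ 2 * (e ^ 2 * t)) * T) := by ring
      _ ≤ _ := by
        have : 0 ≤ (D ^ 2 * (e ^ 2 * t)) * T := by positivity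
        linarith
  have hip : 1 / p ≤ 41 / T := by rw [div_le_div_iff₀ hp hT]; linarith
  calc r * U / p ^ 3 = (r * U) * (1 / p) ^ 3 := by field_simp
    _ ≤ (1 * (291 * (D ^ 2 * (e ^ 2 * t)) * T)) * (41 / T) ^ 3 := by gcongr
    _ = _ := by field_simp

theorem tot_aux {D m t e : ℝ} (hD : D = 2 * (m + 1)) (hm : 0 ≤ m) (ht : 1 ≤ t) :
    4 * (291 * 41 ^ 3 * (D ^ 2 * (e ^ 2 * t))) * D +
      2 * (4 * (12 * 41 ^ 5 * (D ^ 2 * (e ^ 2 * t))) * D) +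
      4 * (3 * 41 ^ 4 * 2584 ^ 2 * (D ^ 2 * e ^ 2)) * D ≤ 2 * 10 ^ 15 * (m + 1) ^ 3 * t * e ^ 2 := by
  subst hD
  have h3 : 0 ≤ (m + 1) ^ 3 * e ^ 2 := by positivity
  have h4 : (m + 1) ^ 3 * e ^ 2 * 1 ≤ (m + 1) ^ 3 * e ^ 2 * t := mul_le_mul_of_nonneg_left ht h3
  linarith


end Pool.Agent.H193.Bom
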