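import Pool.Agent.H193.Bom.A3

set_option autoImplicit false

/-! The coefficient estimate for functions close to the Koebe function. -/

namespace Pool.Agent.H193.Bom

open Complex Metric Set Filter Topology Pool.Agent.H33R3.Bom

open scoped ComplexConjugate

theorem coeff_five {g1 g2 g3 g4 g5 : ℂ → ℂ} (h1 : AnalyticAt ℂ g1 0) (h2 : AnalyticAt ℂ g2 0)
    (h3 : AnalyticAt ℂ g3 0) (h4 : AnalyticAt ℂ g4 0) (h5 : AnalyticAt ℂ g5 0) (n : ℕ) :
    coeff n (fun z => g1 z - g2 z - 2 * I * (g3 z + g4 z) + g5 z) =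
      coeff n g1 - coeff n g2 - 2 * I * (coeff n g3 + coeff n g4) + coeff n g5 := by
  apply I1.hasSum_iff_at (c := fun k => coeff k g1 - coeff k g2 - 2 * I * (coeff k g3 + coeff k g4) + coeff k g5)
  filter_upwards [I1.hasSum_of_an h1, I1.hasSum_of_an h2, I1.hasSum_of_an h3, I1.hasSum_of_an h4,
    I1.hasSum_of_an h5] with z hz1 hz2 hz3 hz4 hz5
  have h := ((hz1.sub hz2).sub ((hz3.add hz4).mul_left (2 * I))).add hz5
  refine hs_congr (fun k => ?_) h
  ring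

/-- the constant -/
def C₀ : ℝ := 2 * 10 ^ 15

theorem upperSmall {f Y : ℂ → ℂ} (hf : InS f) (hY : IsG Y)
    (hfY : ∀ z ∈ ball (0 : ℂ) 1, f (z ^ 2) * Y z ^ 2 = z ^ 2) {n : ℕ} (hn : 2 ≤ n)
    (hl : 6400 ≤ Real.log (2 * n)) (hε : ep Y * Real.log (2 * n) * (n : ℝ) ^ 2 ≤ 400) :
    |((n : ℂ) - coeff n f).re| ≤
      ((n : ℝ) * (n + 1) * (n + 2) / 4 * Real.log (4 * n) + C₀ * (n : ℝ) ^ 3 * √(Real.log (2 * n))) *
        ep Y := by
  obtain ⟨r, D, hD, hr0, hr1, hrD, hrD2, hr4, hD4, hr34⟩ := M13.rad n hn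
  have hn' : (2 : ℝ) ≤ n := by exact_mod_cast hn
  have hD0 : 0 < D := by linarith
  have hzb : ∀ z : ℂ, ‖z‖ = r → z ∈ ball (0 : ℂ) 1 := by
    intro z hz
    simpa [hz] using hr1
  have hep0 := ep_nonneg hY
  set l : ℝ := Real.log (2 * n) with hld
  set t : ℝ := √l with htd
  have hl0 : 0 ≤ l := by linarith
  have ht2 : t ^ 2 = l := Real.sq_sqrt hl0
  have ht0 : 0 ≤ t := Real.sqrt_nonneg _
  have ht1 : 80 ≤ t := by
    rw [htd]; apply Real.le_sqrt_of_sq_le; linarith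
  have hlD : l ≤ D := by
    rw [hld, hD]
    have := Real.log_le_sub_one_of_pos (show (0 : ℝ) < 2 * n by linarith)
    linarith
  have htD : t ≤ D := by nlinarith
  set e : ℝ := √(ep Y) with hed
  have he0 : 0 ≤ e := Real.sqrt_nonneg _
  have he2 : ep Y = e ^ 2 := (Real.sq_sqrt hep0).symm
  have hetn : e * t * n ≤ 20 := by
    have h1 : (e * t * n) ^ 2 ≤ 20 ^ 2 := by
      calc (e * t * n) ^ 2 = e ^ 2 * t ^ 2 * n ^ 2 := by ring
        _ = ep Y * l * n ^ 2 := by rw [← he2, ht2]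
        _ ≤ 400 := hε
        _ = 20 ^ 2 := by norm_num
    exact abs_le_of_sq_le_sq' h1 (by norm_num) |>.2
  have hetD : e * t * D ≤ 40 := by rw [hD]; linarith
  -- the radius R
  set R : ℝ := (1 + r) / 2 with hR
  have hRD : 1 / (2 * D) ≤ 1 - R ^ 2 := by
    have h1 : 1 - R ^ 2 = (1 - r) / 2 * (1 + R) := by rw [hR]; ring
    rw [h1, hrD]
    have h2 : 1 ≤ 1 + R := by rw [hR]; linarith
    calc 1 / (2 * D) = 1 / D / 2 * 1 := by field_simp
      _ ≤ 1 / D / 2 * (1 + R) := by gcongr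
  have hsmallR : ep Y ≤ (1 - R ^ 2) ^ 2 := by
    have h1 : (1 / (2 * D)) ^ 2 ≤ (1 - R ^ 2) ^ 2 := by gcongr
    refine le_trans ?_ h1
    have h3 : ep Y * 6400 * (n : ℝ) ^ 2 ≤ 400 := by
      refine le_trans ?_ hε
      gcongr
    have h2 : ep Y * (2 * D) ^ 2 ≤ 1 := by
      rw [hD]
      linarith
    rw [one_div, inv_pow, ← one_div, le_div_iff₀ (by positivity)]
    exact h2
  have hLaR : La R ≤ (2 * t) ^ 2 := by
    have h1 : La R ≤ Real.log (4 * n) := by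
      rw [La, ← Real.log_inv]
      apply Real.log_le_log
      · have : 0 < 1 - R ^ 2 := lt_of_lt_of_le (by positivity) hRD
        positivity
      · have h2 : (1 - R ^ 2)⁻¹ ≤ (1 / (2 * D))⁻¹ := inv_anti₀ (by positivity) hRD
        refine h2.trans (le_of_eq ?_)
        rw [hD, one_div, inv_inv]; ring
    have h2 : Real.log (4 * n) ≤ 2 * l := by
      have h3 : Real.log (4 * n) = Real.log 2 + l := by
        rw [hld, ← Real.log_mul (by norm_num) (by positivity)]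
        congr 1; ring
      have h4 : Real.log 2 ≤ 1 := by
        have := Real.log_le_sub_one_of_pos (show (0 : ℝ) < 2 by norm_num)
        linarith
      linarith
    nlinarith
  have hUz : ∀ z : ℂ, ‖z‖ = r → ‖UU Y z‖ * ‖z ^ 2 + (R : ℂ) ^ 2‖ ≤ 129 * (e ^ 2 * t * D) := by
    intro z hz
    have h1 := uBound hY (hzb z hz) (by rw [hz]; linarith) (σ := 2 * t) (by positivity)
      (by rw [hz]; exact hLaR) (by rw [hz]; exact hsmallR)
    rw [hz, hrD, mul_one_div, div_le_iff₀ hD0, ← hR, he2] at h1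
    refine h1.trans ?_
    have h2 : 1 + 2 * t ≤ 3 * t := by linarith
    calc 43 * e ^ 2 * (1 + 2 * t) * D ≤ 43 * e ^ 2 * (3 * t) * D := by gcongr
      _ = _ := by ring
  -- bound for h
  have hlog4 : 0 ≤ Real.log (4 * n) := Real.log_nonneg (by linarith)
  have hh2 : ∀ z : ℂ, ‖z‖ = r → ‖hh Y z‖ ^ 2 ≤ ep Y * (1 / 2 * Real.log (4 * n)) := by
    intro z hz
    refine (hBoundOdd hY (hzb z hz)).trans ?_
    have hq : 0 < 1 - r ^ 2 := lt_of_lt_of_le (by positivity) hrD2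
    rw [hz]
    gcongr
    rw [div_le_iff₀ hq]
    have h1 : 1 ≤ D * (1 - r ^ 2) := by
      rw [div_le_iff₀ hD0] at hrD2; linarith
    have h2 : 4 * (n : ℝ) = 2 * D := by rw [hD]; ring
    rw [h2]
    nlinarith
  have hlog42 : 1 / 2 * Real.log (4 * n) ≤ l := by
    have h3 : Real.log (4 * n) = Real.log 2 + l := by
      rw [hld, ← Real.log_mul (by norm_num) (by positivity)]
      congr 1; ring
    have h4 : Real.log 2 ≤ 1 := by
      have := Real.log_le_sub_one_of_pos (show (0 : ℝ) < 2 by norm_num)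
      linarith
    linarith
  have hhet : ∀ z : ℂ, ‖z‖ = r → ‖hh Y z‖ ≤ e * t := by
    intro z hz
    have h1 : ‖hh Y z‖ ^ 2 ≤ (e * t) ^ 2 := by
      refine (hh2 z hz).trans ?_
      rw [mul_pow, ht2, ← he2]
      gcongr
    exact abs_le_of_sq_le_sq' h1 (by positivity) |>.2
  have hrr : ‖(r : ℂ)‖ = r := by rw [Complex.norm_real, Real.norm_eq_abs, abs_of_pos hr0]
  set L : ℝ := ((r : ℂ) * hh Y r).im with hL
  have hLn : |L| ≤ ‖hh Y r‖ := by
    refine (Complex.abs_im_le_norm _).trans ?_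
    rw [norm_mul, hrr]
    nlinarith [norm_nonneg (hh Y r)]
  have hLet : |L| ≤ e * t := hLn.trans (hhet _ hrr)
  have hL2 : L ^ 2 ≤ ep Y * (1 / 2 * Real.log (4 * n)) := by
    rw [← sq_abs]
    exact (pow_le_pow_left₀ (abs_nonneg _) hLn 2).trans (hh2 _ hrr)
  have hLD : |L| ≤ 40 * (1 / D) := by
    rw [mul_one_div, le_div_iff₀ hD0]
    calc |L| * D ≤ e * t * D := by gcongr
      _ ≤ 40 := hetD
  -- the functions
  set w : ℂ := 1 + (L : ℂ) * I with hw
  have hw1 : 1 ≤ ‖w‖ := by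
    have h1 := Complex.abs_re_le_norm w
    have h2 : w.re = 1 := by simp [hw]
    rw [h2, abs_one] at h1
    exact h1
  have hPne : ∀ z ∈ ball (0 : ℂ) 1, w - z ^ 2 ≠ 0 := by
    intro z hz h0
    have h1 : ‖z‖ < 1 := by simpa using hz
    have h2 : w = z ^ 2 := by linear_combination h0
    rw [h2, norm_pow] at hw1
    nlinarith [norm_nonneg z]
  have hYne := hY.ne
  have hQne : ∀ z ∈ ball (0 : ℂ) 1, (1 : ℂ) - z ^ 2 ≠ 0 := fun z hz => I1.ker_ne hz
  set W : ℂ → ℂ := fun z => (z * hh Y z - conj (conj z * hh Y (conj z))) / (2 * I) - L with hW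
  set K : ℂ → ℂ := fun z => z * hh Y z - L * I with hK
  have hhd := I1.hh_diff Y hY
  have hzhd : DifferentiableOn ℂ (fun z => z * hh Y z) (ball 0 1) := differentiableOn_id.mul hhd
  have dW : DifferentiableOn ℂ W (ball 0 1) :=
    ((hzhd.sub (I1.conj_diff hzhd)).div_const _).sub (differentiableOn_const _)
  have dK : DifferentiableOn ℂ K (ball 0 1) := hzhd.sub (differentiableOn_const _)
  have dP : DifferentiableOn ℂ (fun z : ℂ => w - z ^ 2) (ball 0 1) := by fun_prop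
  have dQ : DifferentiableOn ℂ (fun z : ℂ => 1 - z ^ 2) (ball 0 1) := by fun_prop
  have dUU : DifferentiableOn ℂ (UU Y) (ball 0 1) := hhd.add (I1.conj_diff hhd)
  have hKW : ∀ z, K z = 1 / 2 * (z * UU Y z) + I * W z := by
    intro z
    simp only [hK, hW, UU, map_mul, Complex.conj_conj]
    field_simp
    ring_nf
  set g1 : ℂ → ℂ := fun z => 1 / (w - z ^ 2) ^ 2 with hg1
  set g2 : ℂ → ℂ := fun z => z * UU Y z / (w - z ^ 2) ^ 3 with hg2
  set g3 : ℂ → ℂ := fun z => W z / (1 - z ^ 2) ^ 3 with hg3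
  set g4 : ℂ → ℂ := fun z => W z * (1 / (w - z ^ 2) ^ 3 - 1 / (1 - z ^ 2) ^ 3) with hg4
  set g5 : ℂ → ℂ := fun z => K z ^ 2 * (2 / (Y z * (w - z ^ 2) ^ 3) + 1 / (Y z ^ 2 * (w - z ^ 2) ^ 2)) with hg5
  set g0 : ℂ → ℂ := fun z => 1 / Y z ^ 2 with hg0
  have d0 : DifferentiableOn ℂ g0 (ball 0 1) :=
    (differentiableOn_const _).div (hY.diff.pow 2) fun z hz => pow_ne_zero _ (hYne z hz)
  have d1 : DifferentiableOn ℂ g1 (ball 0 1) :=
    (differentiableOn_const _).div (dP.pow 2) fun z hz => pow_ne_zero _ (hPne z hz)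
  have d2 : DifferentiableOn ℂ g2 (ball 0 1) :=
    (differentiableOn_id.mul dUU).div (dP.pow 3) fun z hz => pow_ne_zero _ (hPne z hz)
  have d3 : DifferentiableOn ℂ g3 (ball 0 1) :=
    dW.div (dQ.pow 3) fun z hz => pow_ne_zero _ (hQne z hz)
  have d4 : DifferentiableOn ℂ g4 (ball 0 1) :=
    dW.mul (((differentiableOn_const _).div (dP.pow 3) fun z hz => pow_ne_zero _ (hPne z hz)).sub
      ((differentiableOn_const _).div (dQ.pow 3) fun z hz => pow_ne_zero _ (hQne z hz)))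
  have d5 : DifferentiableOn ℂ g5 (ball 0 1) :=
    (dK.pow 2).mul (((differentiableOn_const _).div (hY.diff.mul (dP.pow 3))
      fun z hz => mul_ne_zero (hYne z hz) (pow_ne_zero _ (hPne z hz))).add
      ((differentiableOn_const _).div ((hY.diff.pow 2).mul (dP.pow 2))
      fun z hz => mul_ne_zero (pow_ne_zero _ (hYne z hz)) (pow_ne_zero _ (hPne z hz))))
  obtain ⟨m, rfl⟩ : ∃ m, n = m + 1 := ⟨n - 1, by omega⟩
  have hc1 : coeff (m + 1) f = coeff (2 * m) g0 := by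
    rw [← I1.coeff_sq (I1.an hf.diff) (m + 1), ← I1.coeff_shift (I1.an d0) (2 * m)]
    apply I1.coeff_congr
    intro z hz
    have h1 := hYne z hz
    have h2 := hfY z hz
    simp only [hg0]
    field_simp
    linear_combination h2
  have hc2 : coeff (2 * m) g0 = coeff (2 * m) g1 - coeff (2 * m) g2 -
      2 * I * (coeff (2 * m) g3 + coeff (2 * m) g4) + coeff (2 * m) g5 := by
    rw [← coeff_five (I1.an d1) (I1.an d2) (I1.an d3) (I1.an d4) (I1.an d5)]
    apply I1.coeff_congr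
    intro z hz
    have h1 := hYne z hz
    have h2 := hPne z hz
    have h3 := I1.Yeq Y hY z
    have h4 : Y z = (w - z ^ 2) + K z := by
      simp only [hK, hw]
      linear_combination -h3
    have h5 : K z = 1 / 2 * (z * UU Y z) + I * W z := hKW z
    have h6 : W z = -I * K z + 1 / 2 * I * (z * UU Y z) := by
      rw [h5]
      linear_combination (W z) * I_mul_I
    have e1 : g3 z + g4 z = W z / (w - z ^ 2) ^ 3 := by
      simp only [hg3, hg4]; ring
    simp only [hg0, hg1, hg2, hg5]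
    rw [e1, h6]
    have h7 : 2 * I * ((-I * K z + 1 / 2 * I * (z * UU Y z)) / (w - z ^ 2) ^ 3) =
        (2 * K z - z * UU Y z) / (w - z ^ 2) ^ 3 := by
      have h8 : 2 * I * (-I * K z + 1 / 2 * I * (z * UU Y z)) = 2 * K z - z * UU Y z := by
        linear_combination (-2 * K z + z * UU Y z) * I_mul_I
      rw [← h8]; ring
    rw [h7]
    set P := w - z ^ 2 with hP
    set Kz := K z
    rw [h4] at h1 ⊢
    field_simp
    ring
  have hc3 : coeff (2 * m) g1 = (m + 1) * (w⁻¹) ^ (m + 2) := coeff_kw w hw1 m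
  have hc4 : (coeff (2 * m) g3).im = 0 := by
    apply coeff_im_zero d3
    intro z hz
    simp only [hg3, hW]
    simp only [map_div₀, map_sub, map_mul, map_pow, Complex.conj_conj, Complex.conj_I,
      Complex.conj_ofReal, map_one, map_ofNat]
    congr 1
    have h2 : (2 * I : ℂ) ≠ 0 := by simp
    have h3 : (2 * -I : ℂ) ≠ 0 := by simp
    field_simp
    ring
  -- bounds on the circle
  have hT1 : ∀ z : ℂ, ‖z‖ = r → 1 / D ≤ ‖1 - z ^ 2‖ := by
    intro z hz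
    have h1 : ‖(1 : ℂ)‖ - ‖z ^ 2‖ ≤ ‖1 - z ^ 2‖ := norm_sub_norm_le _ _
    rw [norm_one, norm_pow, hz] at h1
    linarith
  have hP1 : ∀ z : ℂ, ‖z‖ = r → 1 / D ≤ ‖w - z ^ 2‖ := by
    intro z hz
    have h1 : ‖w‖ - ‖z ^ 2‖ ≤ ‖w - z ^ 2‖ := norm_sub_norm_le _ _
    rw [norm_pow, hz] at h1
    linarith
  have hTP : ∀ z : ℂ, ‖z‖ = r → ‖1 - z ^ 2‖ ≤ 41 * ‖w - z ^ 2‖ := by
    intro z hz
    have e1 : (1 : ℂ) - z ^ 2 = (w - z ^ 2) - L * I := by rw [hw]; ring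
    have h2 : ‖(L : ℂ) * I‖ = |L| := by
      rw [norm_mul, Complex.norm_I, mul_one, Complex.norm_real, Real.norm_eq_abs]
    calc ‖1 - z ^ 2‖ ≤ ‖w - z ^ 2‖ + ‖(L : ℂ) * I‖ := by rw [e1]; exact norm_sub_le _ _
      _ ≤ ‖w - z ^ 2‖ + 40 * (1 / D) := by rw [h2]; linarith
      _ ≤ _ := by have := hP1 z hz; linarith
  have hPT : ∀ z : ℂ, ‖z‖ = r → ‖w - z ^ 2‖ ≤ 41 * ‖1 - z ^ 2‖ := by
    intro z hz
    have e1 : w - z ^ 2 = (1 - z ^ 2) + L * I := by rw [hw]; ring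
    have h2 : ‖(L : ℂ) * I‖ = |L| := by
      rw [norm_mul, Complex.norm_I, mul_one, Complex.norm_real, Real.norm_eq_abs]
    calc ‖w - z ^ 2‖ ≤ ‖1 - z ^ 2‖ + ‖(L : ℂ) * I‖ := by rw [e1]; exact norm_add_le _ _
      _ ≤ ‖1 - z ^ 2‖ + 40 * (1 / D) := by rw [h2]; linarith
      _ ≤ _ := by have := hT1 z hz; linarith
  have hTY : ∀ z : ℂ, ‖z‖ = r → ‖1 - z ^ 2‖ ≤ 41 * ‖Y z‖ := by
    intro z hz
    have h1 := yBound Y hY z (hzb z hz)
    rw [hz] at h1
    have e1 : (1 : ℂ) - z ^ 2 = Y z - z * hh Y z := by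
      have := I1.Yeq Y hY z
      linear_combination this
    have h2 : ‖z * hh Y z‖ ≤ 40 * (1 / D) := by
      rw [norm_mul, hz, mul_one_div, le_div_iff₀ hD0]
      have h3 := hhet z hz
      calc r * ‖hh Y z‖ * D ≤ 1 * (e * t) * D := by gcongr
        _ ≤ 40 := by linarith
    calc ‖1 - z ^ 2‖ ≤ ‖Y z‖ + ‖z * hh Y z‖ := by rw [e1]; exact norm_sub_le _ _
      _ ≤ _ := by linarith
  have hA : ∀ z : ℂ, ‖z‖ = r → ‖z * hh Y z - r * hh Y r‖ ≤ 4 * D * e * ‖1 - z ^ 2‖ := by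
    intro z hz
    have hlip := fun w hw => zhLip hY hr0 hr1 hrD2 hD0 he0 he2 htD hhet (z := z) (w := w) hz hw
    rcases near_pm hr1 hz with h | h
    · refine (hlip r hrr).trans ?_
      have : 0 ≤ 2 * D * e := by positivity
      nlinarith
    · have h1 := hlip (-r) (by rw [norm_neg]; exact hrr)
      rw [hh_odd hY (hzb _ hrr), neg_mul_neg, sub_neg_eq_add] at h1
      refine h1.trans ?_
      have : 0 ≤ 2 * D * e := by positivity
      nlinarith
  have hKb : ∀ z : ℂ, ‖z‖ = r → ‖K z‖ ≤ 2584 * (D * e * ‖1 - z ^ 2‖) := by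
    intro z hz
    have h1 : K z = (z * hh Y z - r * hh Y r) + (((r : ℂ) * hh Y r).re : ℂ) := by
      have h2 := Complex.re_add_im ((r : ℂ) * hh Y r)
      rw [← hL] at h2
      simp only [hK]
      linear_combination -h2
    have h3 : |((r : ℂ) * hh Y r).re| ≤ 2580 * e := by
      have h4 := hUz r hrr
      have h5 : UU Y r = ((2 * (hh Y r).re : ℝ) : ℂ) := by
        simp only [UU, Complex.conj_ofReal, Complex.add_conj]
      have h6 : (r : ℂ) ^ 2 + (R : ℂ) ^ 2 = ((r ^ 2 + R ^ 2 : ℝ) : ℂ) := by push_cast; ring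
      rw [h5, h6, Complex.norm_real, Complex.norm_real, Real.norm_eq_abs, Real.norm_eq_abs,
        abs_mul, abs_two, abs_of_pos (show (0 : ℝ) < r ^ 2 + R ^ 2 by positivity)] at h4
      have h7 : 1 ≤ r ^ 2 + R ^ 2 := by rw [hR]; nlinarith
      have h8 : 129 * (e ^ 2 * t * D) ≤ 129 * (e * 40) := by
        have : e ^ 2 * t * D = e * (e * t * D) := by ring
        rw [this]
        gcongr
      have h9 : 2 * |(hh Y r).re| ≤ 2 * |(hh Y r).re| * (r ^ 2 + R ^ 2) := by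
        nlinarith [abs_nonneg (hh Y r).re]
      rw [Complex.re_ofReal_mul, abs_mul, abs_of_pos hr0]
      have h10 : r * |(hh Y r).re| ≤ 1 * |(hh Y r).re| := by gcongr
      linarith
    have hT := hT1 z hz
    have hDT : 1 ≤ D * ‖1 - z ^ 2‖ := by
      rw [div_le_iff₀ hD0] at hT; linarith
    rw [h1]
    refine (norm_add_le _ _).trans ?_
    rw [Complex.norm_real, Real.norm_eq_abs]
    have h11 := hA z hz
    have h12 : e ≤ D * e * ‖1 - z ^ 2‖ := by nlinarith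
    linarith
  have hWb : ∀ z : ℂ, ‖z‖ = r → ‖W z‖ ≤ 4 * D * e * ‖1 - z ^ 2‖ := by
    intro z hz
    have hzc : ‖conj z‖ = r := by rw [Complex.norm_conj]; exact hz
    have h1 : W z = ((z * hh Y z - r * hh Y r) - conj (conj z * hh Y (conj z) - r * hh Y r)) / (2 * I) := by
      have h2 : (L : ℂ) = ((r * hh Y r) - conj (r * hh Y r)) / (2 * I) := by
        rw [Complex.sub_conj, ← hL]
        have : (2 * I : ℂ) ≠ 0 := by simp
        field_simp
        push_cast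
        ring
      simp only [hW]
      rw [h2, map_sub]
      ring
    have h3 := hA z hz
    have h4 := hA (conj z) hzc
    have h5 : ‖1 - (conj z) ^ 2‖ = ‖1 - z ^ 2‖ := by
      rw [← Complex.norm_conj]
      simp
    rw [h5] at h4
    rw [h1, norm_div, norm_mul, Complex.norm_I, mul_one, Complex.norm_two]
    have h6 := norm_sub_le (z * hh Y z - r * hh Y r) (conj (conj z * hh Y (conj z) - r * hh Y r))
    rw [Complex.norm_conj] at h6
    linarith
  -- coefficient bounds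
  have hm4 : 1 / 4 ≤ r ^ (2 * m) := by
    refine hr4.trans ?_
    apply pow_le_pow_of_le_one hr0.le hr1.le
    omega
  have b5 : ‖coeff (2 * m) g5‖ ≤ 4 * (3 * 41 ^ 4 * 2584 ^ 2 * (D ^ 2 * e ^ 2)) * D := by
    apply coefBd d5 hr0 hr1 (by positivity) hD0 hrD2 hm4
    intro z hz
    have hT : 0 < ‖1 - z ^ 2‖ := norm_pos_iff.2 (hQne z (hzb z hz))
    have hPp : 0 < ‖w - z ^ 2‖ := norm_pos_iff.2 (hPne z (hzb z hz))
    have hYp : 0 < ‖Y z‖ := norm_pos_iff.2 (hYne z (hzb z hz))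
    have h1 := hTP z hz
    have h2 := hTY z hz
    have h3 := hKb z hz
    simp only [hg5]
    rw [norm_mul, norm_pow]
    refine b5_aux hT hPp hYp h1 h2 (norm_nonneg _) h3 ?_ hD0 he0
    refine (norm_add_le _ _).trans ?_
    rw [norm_div, norm_div, norm_mul, norm_mul, norm_pow, norm_pow, norm_pow, norm_one, Complex.norm_two]
  have b2 : ‖coeff (2 * m) g2‖ ≤ 4 * (291 * 41 ^ 3 * (D ^ 2 * (e ^ 2 * t))) * D := by
    apply coefBd d2 hr0 hr1 (by positivity) hD0 hrD2 hm4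
    intro z hz
    have hT : 0 < ‖1 - z ^ 2‖ := norm_pos_iff.2 (hQne z (hzb z hz))
    have hPp : 0 < ‖w - z ^ 2‖ := norm_pos_iff.2 (hPne z (hzb z hz))
    have h1 := hTP z hz
    have hTl := hT1 z hz
    have hRn : ‖(R : ℂ) ^ 2‖ = R ^ 2 := by
      rw [norm_pow, Complex.norm_real, Real.norm_eq_abs, sq_abs]
    have hSl : 4 / 5 * (1 / D) ≤ ‖z ^ 2 + (R : ℂ) ^ 2‖ := by
      have h1 : ‖(R : ℂ) ^ 2‖ - ‖z ^ 2‖ ≤ ‖z ^ 2 + (R : ℂ) ^ 2‖ := by
        have := norm_sub_norm_le ((R : ℂ) ^ 2) (-(z ^ 2))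
        rw [norm_neg, sub_neg_eq_add, add_comm ((R : ℂ) ^ 2)] at this
        exact this
      rw [hRn, norm_pow, hz] at h1
      have h2 : 4 / 5 * (1 / D) ≤ R ^ 2 - r ^ 2 := by
        rw [← hrD, hR]
        nlinarith
      linarith
    have hsum : 1 ≤ ‖1 - z ^ 2‖ + ‖z ^ 2 + (R : ℂ) ^ 2‖ := by
      have h1 := norm_add_le (1 - z ^ 2) (z ^ 2 + (R : ℂ) ^ 2)
      have h2 : (1 - z ^ 2) + (z ^ 2 + (R : ℂ) ^ 2) = ((1 + R ^ 2 : ℝ) : ℂ) := by push_cast; ring
      rw [h2, Complex.norm_real, Real.norm_eq_abs, abs_of_pos (by positivity)] at h1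
      nlinarith [sq_nonneg R]
    have hU := hUz z hz
    simp only [hg2]
    rw [norm_div, norm_mul, norm_pow, hz]
    have hDT : 1 ≤ D * ‖1 - z ^ 2‖ := by
      rw [div_le_iff₀ hD0] at hTl; linarith
    have hDS : 4 / 5 ≤ D * ‖z ^ 2 + (R : ℂ) ^ 2‖ := by
      have : 4 / 5 / D ≤ ‖z ^ 2 + (R : ℂ) ^ 2‖ := by rw [div_eq_mul_one_div]; exact hSl
      rw [div_le_iff₀ hD0] at this; linarith
    exact b2_aux hr0.le hr1.le hT hPp h1 hDT hDS hD0 (norm_nonneg _)
      (lt_of_lt_of_le (by positivity) hSl) hsum he0 ht0 hU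
  have b4 : ‖coeff (2 * m) g4‖ ≤ 4 * (12 * 41 ^ 5 * (D ^ 2 * (e ^ 2 * t))) * D := by
    apply coefBd d4 hr0 hr1 (by positivity) hD0 hrD2 hm4
    intro z hz
    have hQ := hQne z (hzb z hz)
    have hP := hPne z (hzb z hz)
    have hT : 0 < ‖1 - z ^ 2‖ := norm_pos_iff.2 hQ
    have hPp : 0 < ‖w - z ^ 2‖ := norm_pos_iff.2 hP
    have h1 := hTP z hz
    have h2 := hPT z hz
    have h3 := hWb z hz
    have hTl := hT1 z hz
    simp only [hg4]
    have e1 : 1 / (w - z ^ 2) ^ 3 - 1 / (1 - z ^ 2) ^ 3 =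
        -(L * I) * ((1 - z ^ 2) ^ 2 + (1 - z ^ 2) * (w - z ^ 2) + (w - z ^ 2) ^ 2) /
          ((w - z ^ 2) ^ 3 * (1 - z ^ 2) ^ 3) := by
      have : (L : ℂ) * I = (w - z ^ 2) - (1 - z ^ 2) := by rw [hw]; ring
      rw [this]
      field_simp
      ring
    rw [e1, norm_mul, norm_div, norm_mul, norm_neg, norm_mul, Complex.norm_I, mul_one,
      Complex.norm_real, Real.norm_eq_abs, norm_mul, norm_pow, norm_pow]
    have h5 : ‖(1 - z ^ 2) ^ 2 + (1 - z ^ 2) * (w - z ^ 2) + (w - z ^ 2) ^ 2‖ ≤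
        3 * 41 ^ 2 * ‖1 - z ^ 2‖ ^ 2 := by
      refine (norm_add_le _ _).trans ?_
      have h6 := norm_add_le ((1 - z ^ 2) ^ 2) ((1 - z ^ 2) * (w - z ^ 2))
      rw [norm_pow, norm_mul] at h6
      rw [norm_pow]
      have h7 : ‖w - z ^ 2‖ ^ 2 ≤ (41 * ‖1 - z ^ 2‖) ^ 2 := by gcongr
      have h8 : ‖1 - z ^ 2‖ * ‖w - z ^ 2‖ ≤ ‖1 - z ^ 2‖ * (41 * ‖1 - z ^ 2‖) := by gcongr
      nlinarith [sq_nonneg ‖1 - z ^ 2‖]
    have hDT : 1 ≤ D * ‖1 - z ^ 2‖ := by
      rw [div_le_iff₀ hD0] at hTl; linarith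
    exact b4_aux hT hPp h1 hDT hD0 he0 ht0 h3 (abs_nonneg _) hLet (norm_nonneg _) h5
  -- conclusion
  have hmain := (pow_re_aux L (m + 2)).1
  have hwinv : ‖w⁻¹‖ ≤ 1 := by
    rw [norm_inv]; exact inv_le_one_of_one_le₀ hw1
  have hmain2 : (((1 + (L : ℂ) * I)⁻¹) ^ (m + 2)).re ≤ 1 := by
    refine (Complex.re_le_norm _).trans ?_
    rw [norm_pow, ← hw]
    exact pow_le_one₀ (norm_nonneg _) hwinv
  rw [← hw] at hmain hmain2
  have hre : ((((m + 1 : ℕ) : ℂ)) - coeff (m + 1) f).re =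
      ((m : ℝ) + 1) * (1 - ((w⁻¹) ^ (m + 2)).re) + (coeff (2 * m) g2).re - 2 * (coeff (2 * m) g4).im -
        (coeff (2 * m) g5).re := by
    rw [hc1, hc2, hc3]
    have e1 : (((m : ℂ) + 1) * w⁻¹ ^ (m + 2)).re = ((m : ℝ) + 1) * ((w⁻¹) ^ (m + 2)).re := by
      have : ((m : ℂ) + 1) = (((m : ℝ) + 1 : ℝ) : ℂ) := by push_cast; rfl
      rw [this, Complex.re_ofReal_mul]
    have e2 : (2 * I * (coeff (2 * m) g3 + coeff (2 * m) g4)).re = -2 * (coeff (2 * m) g4).im := by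
      simp only [mul_re, mul_im, add_re, add_im, I_re, I_im, hc4]
      norm_num
    simp only [sub_re, add_re, e1, e2, natCast_re]
    push_cast
    ring
  have r2 := (Complex.abs_re_le_norm (coeff (2 * m) g2)).trans b2
  have r4 := (Complex.abs_im_le_norm (coeff (2 * m) g4)).trans b4
  have r5 := (Complex.abs_re_le_norm (coeff (2 * m) g5)).trans b5
  have hm1 : ((m : ℝ) + 1) * (1 - ((w⁻¹) ^ (m + 2)).re) ≤
      ((m : ℝ) + 1) * (((m : ℝ) + 2) * (m + 3) / 2 * (ep Y * (1 / 2 * Real.log (4 * (m + 1 : ℕ))))) := by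
    apply mul_le_mul_of_nonneg_left _ (by positivity)
    have h1 : 1 - ((w⁻¹) ^ (m + 2)).re ≤ ((m : ℝ) + 2) * (m + 3) / 2 * L ^ 2 := by
      push_cast at hmain
      linarith
    refine h1.trans ?_
    gcongr
  have hm0 : 0 ≤ ((m : ℝ) + 1) * (1 - ((w⁻¹) ^ (m + 2)).re) :=
    mul_nonneg (by positivity) (by linarith)
  have hD3 : D = 2 * ((m : ℝ) + 1) := by rw [hD]; push_cast; ring
  have htot : 4 * (291 * 41 ^ 3 * (D ^ 2 * (e ^ 2 * t))) * D +
      2 * (4 * (12 * 41 ^ 5 * (D ^ 2 * (e ^ 2 * t))) * D) +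
      4 * (3 * 41 ^ 4 * 2584 ^ 2 * (D ^ 2 * e ^ 2)) * D ≤ C₀ * ((m : ℝ) + 1) ^ 3 * t * e ^ 2 := by
    exact tot_aux hD3 (Nat.cast_nonneg m) (by linarith)
  rw [hre, he2]
  have habs := abs_le.1 r2
  have habs4 := abs_le.1 r4
  have habs5 := abs_le.1 r5
  rw [he2] at hm1
  rw [abs_le]
  push_cast at hm1 ⊢
  have hpos : 0 ≤ ((m : ℝ) + 1) * (m + 1 + 1) * (m + 1 + 2) / 4 * Real.log (4 * (m + 1)) * e ^ 2 := by
    have : 0 ≤ Real.log (4 * ((m : ℝ) + 1)) := by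
      push_cast at hlog4
      exact hlog4
    positivity
  constructor
  · nlinarith
  · nlinarith

end Pool.Agent.H193.Bom
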