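import Pool.Agent.H193.Bom.A3
import Pool.Graph.R_pool_sql_team_668148b0.Helper265.OsgArea

set_option autoImplicit false

/-! A bound of Littlewood's type: `|a_n| ≤ 8 n` on the class `S`. -/

namespace Pool.Agent.H193.Bom

open Complex Metric Set Filter Topology MeasureTheory Pool.Agent.H33R3.Bom

open Pool.Agent.Helper265.Osg (ev RC area_formula)

theorem hasSum_coeff {g : ℂ → ℂ} (hg : DifferentiableOn ℂ g (ball 0 1)) {z : ℂ}
    (hz : z ∈ ball (0 : ℂ) 1) : HasSum (fun k : ℕ => coeff k g * z ^ k) (g z) := by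
  have hd : DifferentiableOn ℂ g (ball (0:ℂ) ((1 : NNReal) : ℝ)) := by simpa using hg
  have hz' : z ∈ ball (0:ℂ) ((1 : NNReal) : ℝ) := by simpa using hz
  have h1 := Complex.hasSum_taylorSeries_on_ball hd hz'
  refine hs_congr (fun j => ?_) h1
  simp only [coeff, smul_eq_mul, sub_zero]
  rw [div_eq_mul_inv]
  ring

theorem rc_coeff {g : ℂ → ℂ} (hg : DifferentiableOn ℂ g (ball 0 1)) : RC (fun k => coeff k g) := by
  intro r hr0 hr1
  have h1 : HasSum (fun k : ℕ => coeff k g * ((r : ℂ)) ^ k) (g r) := by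
    apply hasSum_coeff hg
    rw [mem_ball_zero_iff, Complex.norm_real, Real.norm_eq_abs, abs_of_nonneg hr0]
    exact hr1
  have h2 := h1.summable.norm
  refine h2.congr (fun k => ?_)
  rw [norm_mul, norm_pow, Complex.norm_real, Real.norm_eq_abs, abs_of_nonneg hr0]

theorem ev_coeff {g : ℂ → ℂ} (hg : DifferentiableOn ℂ g (ball 0 1)) :
    ∀ z ∈ ball (0 : ℂ) 1, ev (fun k => coeff k g) z = g z := by
  intro z hz
  exact (hasSum_coeff hg hz).tsum_eq

/-- area: `∑ j |b_j|² ρ^(2 j) ≤ M²` for a univalent `g` bounded by `M` on `|z| < ρ` -/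
theorem area_le {g : ℂ → ℂ} (hg : DifferentiableOn ℂ g (ball 0 1)) (hi : InjOn g (ball 0 1))
    {ρ M : ℝ} (h0 : 0 ≤ ρ) (h1 : ρ ≤ 1) (hM : ∀ z : ℂ, ‖z‖ < ρ → ‖g z‖ ≤ M) (hM0 : 0 ≤ M) (N : ℕ) :
    ∑ j ∈ Finset.range N, (j : ℝ) * ‖coeff j g‖ ^ 2 * ρ ^ (2 * j) ≤ M ^ 2 := by
  have hev := ev_coeff hg
  have hi' : InjOn (ev (fun k => coeff k g)) (ball 0 1) := by
    intro x hx y hy hxy
    rw [hev x hx, hev y hy] at hxy
    exact hi hx hy hxy
  have hA := area_formula (rc_coeff hg) hi' h0 h1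
  have hsub : ev (fun k => coeff k g) '' ball (0 : ℂ) ρ ⊆ closedBall 0 M := by
    rintro _ ⟨z, hz, rfl⟩
    have hz1 : ‖z‖ < ρ := by simpa using hz
    rw [hev z (by rw [mem_ball_zero_iff]; linarith)]
    rw [mem_closedBall_zero_iff]
    exact hM z hz1
  have h2 := measure_mono (μ := volume) hsub
  rw [hA, Complex.volume_closedBall] at h2
  have h3 : ∑ j ∈ Finset.range N, ENNReal.ofReal (Real.pi * ((j : ℝ) * ‖coeff j g‖ ^ 2 * ρ ^ (2 * j))) ≤
      ENNReal.ofReal M ^ 2 * NNReal.pi := (ENNReal.sum_le_tsum _).trans h2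
  rw [← ENNReal.ofReal_sum_of_nonneg (fun j _ => by positivity), ← Finset.mul_sum] at h3
  have h4 : ENNReal.ofReal M ^ 2 * NNReal.pi = ENNReal.ofReal (Real.pi * M ^ 2) := by
    rw [mul_comm Real.pi, ENNReal.ofReal_mul (by positivity), ENNReal.ofReal_pow hM0]
    congr 1
    rw [ENNReal.ofReal, ← NNReal.coe_real_pi, Real.toNNReal_coe]
  rw [h4, ENNReal.ofReal_le_ofReal_iff (by positivity)] at h3
  exact le_of_mul_le_mul_left h3 Real.pi_pos

/-- integration of the area inequality -/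
theorem sum_le_of_deriv {N : ℕ} {c : ℕ → ℝ} (hc0 : c 0 = 0)
    (h : ∀ x : ℝ, 0 < x → x < 1 → ∑ j ∈ Finset.range N, (j : ℝ) * c j * x ^ j ≤ x / (1 - x) ^ 2)
    {x : ℝ} (hx0 : 0 ≤ x) (hx1 : x < 1) :
    ∑ j ∈ Finset.range N, c j * x ^ j ≤ x / (1 - x) := by
  set F : ℝ → ℝ := fun y => y / (1 - y) - ∑ j ∈ Finset.range N, c j * y ^ j with hF
  have hder : ∀ y : ℝ, y < 1 → HasDerivAt F (1 / (1 - y) ^ 2 - ∑ j ∈ Finset.range N, c j * (j * y ^ (j - 1))) y := by
    intro y hy
    have hne : (1 - y) ≠ 0 := by linarith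
    have h1 : HasDerivAt (fun y : ℝ => y / (1 - y)) (1 / (1 - y) ^ 2) y := by
      have := (hasDerivAt_id y).div ((hasDerivAt_id y).const_sub 1) hne
      refine this.congr_deriv ?_
      simp
    refine h1.sub ?_
    apply HasDerivAt.fun_sum
    intro j _
    exact (hasDerivAt_pow j y).const_mul (c j)
  have hmono : MonotoneOn F (Icc 0 x) := by
    apply monotoneOn_of_deriv_nonneg (convex_Icc 0 x)
    · intro y hy
      exact (hder y (by linarith [hy.2])).continuousAt.continuousWithinAt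
    · intro y hy
      rw [interior_Icc] at hy
      exact (hder y (by linarith [hy.2])).differentiableAt.differentiableWithinAt
    · intro y hy
      rw [interior_Icc] at hy
      rw [(hder y (by linarith [hy.2])).deriv]
      have h2 := h y hy.1 (by linarith [hy.2])
      have h3 : ∑ j ∈ Finset.range N, (j : ℝ) * c j * y ^ j =
          y * ∑ j ∈ Finset.range N, c j * (j * y ^ (j - 1)) := by
        rw [Finset.mul_sum]
        refine Finset.sum_congr rfl (fun j _ => ?_)
        rcases j with _ | j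
        · simp
        · rw [Nat.add_sub_cancel, pow_succ]; ring
      rw [h3] at h2
      have h4 : y / (1 - y) ^ 2 = y * (1 / (1 - y) ^ 2) := by ring
      rw [h4] at h2
      have := le_of_mul_le_mul_left h2 hy.1
      linarith
  have h5 := hmono (left_mem_Icc.2 hx0) (right_mem_Icc.2 hx0) hx0
  have h6 : F 0 = 0 := by
    simp only [hF, zero_div, zero_sub, neg_eq_zero]
    apply Finset.sum_eq_zero
    intro j _
    rcases j with _ | j
    · simp [hc0]
    · simp
  rw [h6] at h5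
  simp only [hF] at h5
  linarith

/-- `|a_n| ≤ 8 n` -/
theorem littlewood {f Y : ℂ → ℂ} (hf : InS f) (hY : IsG Y)
    (hfY : ∀ z ∈ ball (0 : ℂ) 1, f (z ^ 2) * Y z ^ 2 = z ^ 2) {n : ℕ} (hn : 1 ≤ n) :
    ‖coeff n f‖ ≤ 8 * n := by
  set g : ℂ → ℂ := fun z => z / Y z with hg
  have hgd : DifferentiableOn ℂ g (ball 0 1) := differentiableOn_id.div hY.diff hY.ne
  have hgi : InjOn g (ball 0 1) := by
    intro x hx y hy hxy
    simp only [hg] at hxy
    by_cases hx0 : x = 0
    · subst hx0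
      rw [zero_div] at hxy
      rcases div_eq_zero_iff.1 hxy.symm with h | h
      · exact h.symm
      · exact absurd h (hY.ne y hy)
    by_cases hy0 : y = 0
    · subst hy0
      rw [zero_div] at hxy
      rcases div_eq_zero_iff.1 hxy with h | h
      · exact h
      · exact absurd h (hY.ne x hx)
    apply hY.inj ⟨hx, hx0⟩ ⟨hy, hy0⟩
    have := congrArg (fun w : ℂ => w⁻¹) hxy
    simpa [inv_div] using this
  have hgM : ∀ ρ : ℝ, 0 < ρ → ρ < 1 → ∀ z : ℂ, ‖z‖ < ρ → ‖g z‖ ≤ ρ / (1 - ρ ^ 2) := by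
    intro ρ h0 h1 z hz
    have h2 := yBound Y hY z (by rw [mem_ball_zero_iff]; linarith)
    have h3 : 1 - ρ ^ 2 ≤ 1 - ‖z‖ ^ 2 := by nlinarith [norm_nonneg z]
    have h4 : 0 < 1 - ρ ^ 2 := by nlinarith
    simp only [hg]
    rw [norm_div]
    apply div_le_div₀ h0.le hz.le h4
    linarith
  set c : ℕ → ℝ := fun j => ‖coeff j g‖ ^ 2 with hc
  have hc0 : c 0 = 0 := by
    have : coeff 0 g = 0 := by
      simp [coeff, hg]
    simp [hc, this]
  have hsum : ∀ N : ℕ, ∀ x : ℝ, 0 ≤ x → x < 1 → ∑ j ∈ Finset.range N, c j * x ^ j ≤ x / (1 - x) := by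
    intro N x hx0 hx1
    refine sum_le_of_deriv hc0 ?_ hx0 hx1
    intro y hy0 hy1
    have hs0 : 0 < √y := Real.sqrt_pos.2 hy0
    have hs2 : (√y) ^ 2 = y := Real.sq_sqrt hy0.le
    have hs1 : √y < 1 := by rw [Real.sqrt_lt' one_pos]; linarith
    have h1 : 0 < 1 - (√y) ^ 2 := by rw [hs2]; linarith
    have h2 := area_le hgd hgi hs0.le hs1.le (hgM _ hs0 hs1) (by positivity) N
    simp only [pow_mul, hs2] at h2
    rw [div_pow, hs2] at h2
    simp only [hc]
    exact h2
  -- the radius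
  have hn' : (1 : ℝ) ≤ n := by exact_mod_cast hn
  set x : ℝ := 1 - 1 / (2 * n) with hx
  have hxi : 0 < 1 / (2 * (n : ℝ)) := by positivity
  have hxi2 : 1 / (2 * (n : ℝ)) ≤ 1 / 2 := by
    apply one_div_le_one_div_of_le <;> linarith
  have hx0 : 0 < x := by rw [hx]; linarith
  have hx1 : x < 1 := by rw [hx]; linarith
  have hxn : 1 / 4 ≤ x ^ (2 * n) := by
    have h2 : (1 : ℝ) / 2 ≤ x ^ n := by
      have := one_add_mul_le_pow (a := -(1 / (2 * (n : ℝ)))) (by linarith) n
      have h3 : 1 + (n : ℝ) * -(1 / (2 * n)) = 1 / 2 := by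
        field_simp
        ring
      rw [h3] at this
      simpa [hx, sub_eq_add_neg] using this
    have h5 : x ^ (2 * n) = (x ^ n) ^ 2 := by rw [mul_comm 2 n, pow_mul]
    rw [h5]
    nlinarith
  have hS : ∑ j ∈ Finset.range (2 * n + 1), c j ≤ 8 * n := by
    have h1 := hsum (2 * n + 1) x hx0.le hx1
    have h2 : ∑ j ∈ Finset.range (2 * n + 1), c j * (1 / 4) ≤ ∑ j ∈ Finset.range (2 * n + 1), c j * x ^ j := by
      refine Finset.sum_le_sum (fun j hj => ?_)
      rw [Finset.mem_range] at hj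
      apply mul_le_mul_of_nonneg_left _ (by positivity)
      refine hxn.trans ?_
      apply pow_le_pow_of_le_one hx0.le hx1.le
      omega
    rw [← Finset.sum_mul] at h2
    have h3 : x / (1 - x) ≤ 2 * n := by
      have : 1 - x = 1 / (2 * n) := by rw [hx]; ring
      rw [this, div_le_iff₀ hxi]
      have e : 2 * (n : ℝ) * (1 / (2 * n)) = 1 := by field_simp
      rw [e]; exact hx1.le
    linarith
  -- Cauchy product
  have hcp : coeff (2 * n) (fun z => g z ^ 2) =
      ∑ k ∈ Finset.range (2 * n + 1), coeff k g * coeff (2 * n - k) g := by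
    apply I1.hasSum_iff_at (c := fun m => ∑ k ∈ Finset.range (m + 1), coeff k g * coeff (m - k) g)
    filter_upwards [Metric.ball_mem_nhds (0 : ℂ) one_pos] with z hz
    have h1 := hasSum_coeff hgd hz
    have h2 : Summable fun k : ℕ => ‖coeff k g * z ^ k‖ := h1.summable.norm
    have h3 := summable_norm_sum_mul_range_of_summable_norm h2 h2
    have h4 := tsum_mul_tsum_eq_tsum_sum_range_of_summable_norm h2 h2
    rw [h1.tsum_eq] at h4
    have h5 := h3.of_norm.hasSum
    rw [← h4, ← sq] at h5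
    refine hs_congr (fun m => ?_) h5
    rw [Finset.sum_mul]
    refine Finset.sum_congr rfl (fun k hk => ?_)
    rw [Finset.mem_range] at hk
    have : z ^ m = z ^ k * z ^ (m - k) := by rw [← pow_add]; congr 1; omega
    rw [this]; ring
  have hcf : coeff n f = coeff (2 * n) (fun z => g z ^ 2) := by
    rw [← I1.coeff_sq (I1.an hf.diff) n]
    apply I1.coeff_congr
    intro z hz
    have h1 := hY.ne z hz
    have h2 := hfY z hz
    simp only [hg]
    rw [div_pow, eq_div_iff (pow_ne_zero _ h1)]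
    exact h2
  rw [hcf, hcp]
  refine (norm_sum_le _ _).trans ?_
  have h6 : ∀ k ∈ Finset.range (2 * n + 1), ‖coeff k g * coeff (2 * n - k) g‖ ≤
      1 / 2 * (c k + c (2 * n - k)) := by
    intro k _
    rw [norm_mul]
    simp only [hc]
    nlinarith [sq_nonneg (‖coeff k g‖ - ‖coeff (2 * n - k) g‖)]
  refine (Finset.sum_le_sum h6).trans ?_
  rw [← Finset.mul_sum, Finset.sum_add_distrib]
  have h7 : ∑ k ∈ Finset.range (2 * n + 1), c (2 * n - k) = ∑ k ∈ Finset.range (2 * n + 1), c k := by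
    have := Finset.sum_range_reflect c (2 * n + 1)
    simpa using this
  rw [h7]
  linarith

end Pool.Agent.H193.Bom
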