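import Pool.Agent.H193.Bom.A4
import Pool.Agent.H193.Bom.A5

set_option autoImplicit false

/-! The upper bound for the Bombieri constants. -/

namespace Pool.Agent.H193.Bom

open Complex Metric Set Filter Topology Pool.Agent.H33R3.Bom

theorem log_two_mul_le {n : ℕ} (hn : 2 ≤ n) : Real.log (2 * n) ≤ 2 * Real.log n := by
  have hn' : (2 : ℝ) ≤ n := by exact_mod_cast hn
  have h1 : Real.log (2 * n) = Real.log 2 + Real.log n := Real.log_mul (by norm_num) (by positivity)
  have h2 : Real.log 2 ≤ Real.log n := Real.log_le_log (by norm_num) hn'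
  linarith

theorem sqrt_log_ge {n : ℕ} (hn : 2 ≤ n) : 4 / 5 ≤ √(Real.log n) := by
  have hn' : (2 : ℝ) ≤ n := by exact_mod_cast hn
  apply Real.le_sqrt_of_sq_le
  have h2 : Real.log 2 ≤ Real.log n := Real.log_le_log (by norm_num) hn'
  have := Real.log_two_gt_d9
  norm_num
  linarith

theorem upper : ∀ n : ℕ, 2 ≤ n → ∀ f : ℂ → ℂ, InS f →
    |((n : ℂ) - coeff n f).re| ≤
      (1 / 4 * (n : ℝ) ^ 3 * Real.log n + 5 * 10 ^ 15 * (n : ℝ) ^ 3 * √(Real.log n)) *
        ((2 : ℂ) - coeff 2 f).re := by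
  intro n hn f hf
  obtain ⟨Y, hY, hfY, hep⟩ := Pool.Agent.H788R3.Bom.taskA f hf
  have hn' : (2 : ℝ) ≤ n := by exact_mod_cast hn
  have he : ((2 : ℂ) - coeff 2 f).re = ep Y := by rw [hep]; simp
  have hep0 := ep_nonneg hY
  have hs45 := sqrt_log_ge hn
  have hl2 := log_two_mul_le hn
  have hlog0 : 0 ≤ Real.log n := Real.log_nonneg (by linarith)
  set s := √(Real.log n) with hs
  have hs0 : 0 ≤ s := Real.sqrt_nonneg _
  have hs2 : s ^ 2 = Real.log n := Real.sq_sqrt hlog0
  have hn3 : 0 ≤ (n : ℝ) ^ 3 := by positivity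
  rcases lt_or_ge (Real.log (2 * n)) 6400 with hsmall | hbig
  · have h1 := (goal2 f hf n hn).1
    rw [he] at h1 ⊢
    refine h1.trans ?_
    apply mul_le_mul_of_nonneg_right _ hep0
    have h2 : Real.log n ≤ 6400 := by
      have : Real.log n ≤ Real.log (2 * n) := Real.log_le_log (by linarith) (by linarith)
      linarith
    have h3 : 10 ^ 5 * (n : ℝ) ^ 3 * (1 + Real.log n) ≤ 10 ^ 5 * (n : ℝ) ^ 3 * 6401 := by
      apply mul_le_mul_of_nonneg_left _ (by positivity)
      linarith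
    have h4 : (n : ℝ) ^ 3 * (4 / 5) ≤ (n : ℝ) ^ 3 * s := mul_le_mul_of_nonneg_left hs45 hn3
    have h5 : 0 ≤ (n : ℝ) ^ 3 * Real.log n := by positivity
    linarith
  · rw [he]
    rcases le_or_gt (ep Y * Real.log (2 * n) * (n : ℝ) ^ 2) 400 with h | h
    · refine (upperSmall hf hY hfY hn hbig h).trans ?_
      apply mul_le_mul_of_nonneg_right _ hep0
      have hlog1 : 1 ≤ Real.log n := by linarith
      have hs1 : 1 ≤ s := by
        rw [hs]; apply Real.le_sqrt_of_sq_le; linarith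
      have h4 : Real.log (4 * n) ≤ Real.log n + 3 / 2 := by
        have h1 : Real.log (4 * n) = Real.log 4 + Real.log n := Real.log_mul (by norm_num) (by positivity)
        have h2 : Real.log 4 = 2 * Real.log 2 := by
          rw [show (4 : ℝ) = 2 ^ 2 by norm_num, Real.log_pow]; norm_num
        have := Real.log_two_lt_d9
        linarith
      have h5 : (n : ℝ) * (n + 1) * (n + 2) ≤ (n : ℝ) ^ 3 + 4 * (n : ℝ) ^ 2 := by nlinarith
      have h6 : Real.log n + 3 / 2 ≤ 5 / 4 * n := by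
        have := Real.log_le_sub_one_of_pos (show (0 : ℝ) < n by linarith)
        linarith
      have h7 : (n : ℝ) * (n + 1) * (n + 2) / 4 * Real.log (4 * n) ≤
          1 / 4 * (n : ℝ) ^ 3 * Real.log n + 2 * (n : ℝ) ^ 3 := by
        have e1 : 0 ≤ Real.log (4 * n) := Real.log_nonneg (by linarith)
        calc (n : ℝ) * (n + 1) * (n + 2) / 4 * Real.log (4 * n)
            ≤ ((n : ℝ) ^ 3 + 4 * (n : ℝ) ^ 2) / 4 * (Real.log n + 3 / 2) := by gcongr
          _ = 1 / 4 * (n : ℝ) ^ 3 * Real.log n + 3 / 8 * (n : ℝ) ^ 3 + (n : ℝ) ^ 2 * (Real.log n + 3 / 2) := by ring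
          _ ≤ 1 / 4 * (n : ℝ) ^ 3 * Real.log n + 3 / 8 * (n : ℝ) ^ 3 + (n : ℝ) ^ 2 * (5 / 4 * n) := by gcongr
          _ ≤ _ := by nlinarith
      have h8 : √(Real.log (2 * n)) ≤ 2 * s := by
        apply Real.sqrt_le_iff.2
        refine ⟨by positivity, ?_⟩
        rw [mul_pow, hs2]
        linarith
      have h9 : C₀ * (n : ℝ) ^ 3 * √(Real.log (2 * n)) ≤ C₀ * (n : ℝ) ^ 3 * (2 * s) := by
        apply mul_le_mul_of_nonneg_left h8
        unfold C₀; positivity
      have h10 : (n : ℝ) ^ 3 * 1 ≤ (n : ℝ) ^ 3 * s := mul_le_mul_of_nonneg_left hs1 hn3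
      unfold C₀ at h9 ⊢
      linarith
    · have h1 := littlewood hf hY hfY (n := n) (by omega)
      have h2 : |((n : ℂ) - coeff n f).re| ≤ 9 * n := by
        refine (Complex.abs_re_le_norm _).trans ((norm_sub_le _ _).trans ?_)
        rw [Complex.norm_natCast]
        linarith
      refine h2.trans ?_
      have h3 : 400 ≤ ep Y * (2 * Real.log n) * (n : ℝ) ^ 2 := by
        refine h.le.trans ?_
        gcongr
      have h4 : 9 * (n : ℝ) ≤ 1 / 4 * (n : ℝ) ^ 3 * Real.log n * ep Y := by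
        have e : 1 / 4 * (n : ℝ) ^ 3 * Real.log n * ep Y =
          (n : ℝ) / 8 * (ep Y * (2 * Real.log n) * (n : ℝ) ^ 2) := by ring
        rw [e]
        nlinarith
      have h5 : 0 ≤ 5 * 10 ^ 15 * (n : ℝ) ^ 3 * s * ep Y := by positivity
      linarith

end Pool.Agent.H193.Bom
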