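import Pool.Graph.R_seed8.H33R3.Bom.Final3

set_option autoImplicit false

/-! The lower bound for the Bombieri constants, with the sharp constant, near the Koebe function. -/

namespace Pool.Agent.H193.Bom

open Complex Metric Set Filter Topology Pool.Agent.H33R3.Bom

/-- lower bound by the explicit family, for functions close to the Koebe function -/
theorem family {n J : ℕ} (hn : 2 ≤ n) (hJ : 2 * J + 3 ≤ n) {δ c : ℝ} (hδ : 0 < δ)
    (hc : ∀ f, InS f → 0 < ((2 : ℂ) - coeff 2 f).re → ((2 : ℂ) - coeff 2 f).re < δ →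
      |((n : ℂ) - coeff n f).re| ≤ c * ((2 : ℂ) - coeff 2 f).re) :
    3 * (∑ i ∈ Finset.range (J + 1), qs (1 - 1 / n) i) ^ 2 * ((n - 2 * J).choose 3 : ℝ) ≤
      c * (2 * ms (1 - 1 / n) 0) := by
  have hn2 : (2 : ℝ) ≤ n := by exact_mod_cast hn
  set ρ : ℝ := 1 - 1 / n with hρ
  have hinv : 1 / (n : ℝ) ≤ 1 / 2 := one_div_le_one_div_of_le (by norm_num) hn2
  have hinv0 : 0 < 1 / (n : ℝ) := by positivity
  have hρ0 : 0 < ρ := by rw [hρ]; linarith
  have hρ1 : ρ < 1 := by rw [hρ]; linarith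
  set Λ : ℝ := Real.log ((1 + ρ) / (1 - ρ)) with hΛ
  have hΛ0 : 0 ≤ Λ := by
    apply Real.log_nonneg
    rw [le_div_iff₀ (by linarith)]
    linarith
  have hq0 : ∀ j, 0 ≤ qs ρ j := fun j => by unfold qs; positivity
  have hm0 : ∀ j, 0 ≤ ms ρ j := fun j => by
    unfold ms
    rw [← hΛ]
    have : (0 : ℝ) ≤ if j = 0 then 1 else 0 := by split_ifs <;> norm_num
    positivity
  have hpow : ∀ j : ℕ, ρ ^ (2 * j + 1) ≤ ρ ^ j := fun j =>
    pow_le_pow_of_le_one hρ0.le hρ1.le (by omega)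
  have hqb : ∀ j, |qs ρ j| ≤ (Λ + 2) * ρ ^ j := fun j => by
    rw [abs_of_nonneg (hq0 j)]
    unfold qs
    have h1 : 2 * ρ ^ (2 * j + 1) / (2 * (j : ℝ) + 1) ≤ 2 * ρ ^ (2 * j + 1) :=
      div_le_self (by positivity) (by linarith [(Nat.cast_nonneg j : (0 : ℝ) ≤ j)])
    have h2 := hpow j
    have h3 : 0 ≤ ρ ^ j := by positivity
    nlinarith
  have hmb : ∀ j, |ms ρ j| ≤ (Λ + 2) * ρ ^ j := fun j => by
    rw [abs_of_nonneg (hm0 j)]
    unfold ms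
    rw [← hΛ]
    have h2 := hpow j
    have h3 : 0 ≤ ρ ^ j := by positivity
    have h4 : (if j = 0 then (1 : ℝ) else 0) ≤ ρ ^ j := by
      split_ifs with h
      · subst h; simp
      · positivity
    nlinarith
  obtain ⟨ε₀, hε₀, hinj⟩ := P2.taskP (qs ρ) (ms ρ) ρ (Λ + 2) 1 hρ0 hρ1 one_pos hqb hmb
    (Pool.Agent.H299R5.Bom3.taskR ρ hρ0 hρ1)
  obtain ⟨ε₁, K, hε₁, hexp⟩ := taskE3 (qs ρ) (ms ρ) ρ (Λ + 2) hρ0 hρ1 hqb hmb hq0 hm0 n J hJ
  have hmpos : 0 < 2 * ms ρ 0 := by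
    unfold ms
    rw [← hΛ]
    simp only [if_true]
    positivity
  set B : ℝ := 3 * (∑ i ∈ Finset.range (J + 1), qs ρ i) ^ 2 * ((n - 2 * J).choose 3 : ℝ) with hB
  set ε₂ : ℝ := min (1 : ℝ) (δ / (2 * ms ρ 0)) with hε₂
  have hε₂0 : 0 < ε₂ := lt_min one_pos (by positivity)
  have key : ∀ ε : ℝ, 0 < ε → ε < min (min ε₀ ε₁) ε₂ → B - K * ε ≤ c * (2 * ms ρ 0) := by
    intro ε h0 h1
    have h1a := h1.trans_le (min_le_left _ _)
    have h1b := h1.trans_le (min_le_right _ _)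
    obtain ⟨he1, he2⟩ := hexp ε h0 (h1a.trans_le (min_le_right _ _))
    have hfS := V323.taskV (qs ρ) (ms ρ) ρ (Λ + 2) ε hρ0 hρ1 hqb hmb
      (hinj ε h0 (h1a.trans_le (min_le_left _ _)))
    have hlt : 2 * ε ^ 2 * ms ρ 0 < δ := by
      have e1 : ε < 1 := h1b.trans_le (min_le_left _ _)
      have e2 : ε < δ / (2 * ms ρ 0) := h1b.trans_le (min_le_right _ _)
      rw [lt_div_iff₀ hmpos] at e2
      have e3 : ε ^ 2 ≤ ε := by nlinarith
      have e4 : ε ^ 2 * (2 * ms ρ 0) ≤ ε * (2 * ms ρ 0) := mul_le_mul_of_nonneg_right e3 hmpos.le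
      linarith
    have h2 := hc _ hfS (by
      rw [he1]
      have := mul_pos (pow_pos h0 2) hmpos
      linarith) (by rw [he1]; exact hlt)
    rw [he1] at h2
    have h3 := (le_abs_self _).trans h2
    have h4 := he2.trans h3
    have h5 : ε ^ 2 * (B - K * ε) ≤ ε ^ 2 * (c * (2 * ms ρ 0)) := by
      rw [hB]
      nlinarith
    exact le_of_mul_le_mul_left h5 (by positivity)
  have ht : Tendsto (fun ε : ℝ => B - K * ε) (𝓝[>] 0) (𝓝 (B - K * 0)) := by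
    apply Tendsto.mono_left _ nhdsWithin_le_nhds
    exact (continuous_const.sub (continuous_const.mul continuous_id)).tendsto 0
  rw [mul_zero, sub_zero] at ht
  refine le_of_tendsto ht ?_
  have : Set.Ioo (0 : ℝ) (min (min ε₀ ε₁) ε₂) ∈ 𝓝[>] (0 : ℝ) := Ioo_mem_nhdsGT (lt_min (lt_min hε₀ hε₁) hε₂0)
  filter_upwards [this] with ε hε using key ε hε.1 hε.2

theorem sum_qs_ge {n J : ℕ} (hn : 2 ≤ n) :
    Real.log (J + 2) - 2 * (J + 1) / n ≤ ∑ i ∈ Finset.range (J + 1), qs (1 - 1 / n) i := by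
  have hn2 : (2 : ℝ) ≤ n := by exact_mod_cast hn
  have h1 : ∀ i ∈ Finset.range (J + 1), ((i : ℝ) + 1)⁻¹ - 2 / n ≤ qs (1 - 1 / n) i := by
    intro i _
    unfold qs
    have h2 : 1 - ((2 * i + 1 : ℕ) : ℝ) * (1 / n) ≤ (1 - 1 / (n : ℝ)) ^ (2 * i + 1) := by
      have h3 : 1 / (n : ℝ) ≤ 1 := by rw [div_le_one (by linarith)]; linarith
      have := one_add_mul_le_pow (a := -(1 / (n : ℝ))) (by linarith) (2 * i + 1)
      calc 1 - ((2 * i + 1 : ℕ) : ℝ) * (1 / n) = 1 + ((2 * i + 1 : ℕ) : ℝ) * -(1 / n) := by ring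
        _ ≤ _ := this
        _ = _ := by ring
    push_cast at h2
    have hi : (0 : ℝ) < 2 * i + 1 := by positivity
    rw [le_div_iff₀ hi]
    have h4 : (((i : ℝ) + 1)⁻¹) * (2 * i + 1) ≤ 2 := by
      rw [inv_mul_le_iff₀ (by positivity)]
      linarith
    have h5 : (((i : ℝ) + 1)⁻¹ - 2 / n) * (2 * i + 1) =
        (((i : ℝ) + 1)⁻¹) * (2 * i + 1) - 2 * ((2 * i + 1) * (1 / n)) := by ring
    rw [h5]
    linarith
  refine le_trans ?_ (Finset.sum_le_sum h1)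
  rw [Finset.sum_sub_distrib, Finset.sum_const, Finset.card_range, nsmul_eq_mul]
  have h6 : Real.log ((J + 1 + 1 : ℕ) : ℝ) ≤ (harmonic (J + 1) : ℝ) := log_add_one_le_harmonic (J + 1)
  have h7 : (harmonic (J + 1) : ℝ) = ∑ i ∈ Finset.range (J + 1), ((i : ℝ) + 1)⁻¹ := by
    rw [harmonic]
    push_cast
    rfl
  rw [h7] at h6
  have e1 : ((J + 1 + 1 : ℕ) : ℝ) = J + 2 := by push_cast; ring
  rw [e1] at h6
  have e2 : ((J + 1 : ℕ) : ℝ) * (2 / n) = 2 * (J + 1) / n := by push_cast; ring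
  rw [e2]
  linarith

theorem ms_le {n : ℕ} (hn : 2 ≤ n) : ms (1 - 1 / n) 0 ≤ Real.log n + 2 := by
  have hn2 : (2 : ℝ) ≤ n := by exact_mod_cast hn
  unfold ms
  simp only [mul_zero, zero_add, pow_one, if_true]
  have hinv0 : 0 < 1 / (n : ℝ) := by positivity
  have h1 : (1 + (1 - 1 / (n : ℝ))) / (1 - (1 - 1 / (n : ℝ))) ≤ 2 * n := by
    have e : 1 - (1 - 1 / (n : ℝ)) = 1 / n := by ring
    rw [e, div_le_iff₀ hinv0]
    have : 2 * (n : ℝ) * (1 / n) = 2 := by field_simp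
    rw [this]
    linarith
  have h2 : 1 / (n : ℝ) ≤ 1 / 2 := one_div_le_one_div_of_le (by norm_num) hn2
  have h3 : 1 ≤ (1 + (1 - 1 / (n : ℝ))) / (1 - (1 - 1 / (n : ℝ))) := by
    have e : 1 - (1 - 1 / (n : ℝ)) = 1 / n := by ring
    rw [e, le_div_iff₀ hinv0]
    linarith
  have h4 : Real.log ((1 + (1 - 1 / (n : ℝ))) / (1 - (1 - 1 / (n : ℝ)))) ≤ Real.log (2 * n) :=
    Real.log_le_log (by linarith) h1
  have h5 : 0 ≤ Real.log ((1 + (1 - 1 / (n : ℝ))) / (1 - (1 - 1 / (n : ℝ)))) := Real.log_nonneg h3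
  have h6 : Real.log (2 * n) = Real.log 2 + Real.log n := Real.log_mul (by norm_num) (by positivity)
  have h7 := Real.log_two_lt_d9
  have h8 : Real.log ((1 + (1 - 1 / (n : ℝ))) / (1 - (1 - 1 / (n : ℝ)))) * (1 - 1 / n) ≤
      Real.log ((1 + (1 - 1 / (n : ℝ))) / (1 - (1 - 1 / (n : ℝ)))) * 1 :=
    mul_le_mul_of_nonneg_left (by linarith) h5
  linarith

theorem choose_ge {m : ℕ} (hm : 2 ≤ m) : ((m : ℝ) - 2) ^ 3 / 6 ≤ (m.choose 3 : ℝ) := by
  obtain ⟨k, rfl⟩ : ∃ k, m = k + 2 := ⟨m - 2, by omega⟩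
  have h1 : ((k + 2).choose 3 : ℝ) * 6 = (k + 2) * (k + 1) * k := by
    have h3 : (k + 2).choose 3 * 6 = (k + 2) * (k + 1) * k := by
      have h4 := Nat.descFactorial_eq_factorial_mul_choose (k + 2) 3
      have h5 : (k + 2).descFactorial 3 = (k + 2) * (k + 1) * k := by
        simp [Nat.descFactorial_succ]
        ring
      rw [h5] at h4
      have h6 : Nat.factorial 3 = 6 := rfl
      rw [h6] at h4
      linarith
    exact_mod_cast h3
  push_cast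
  have h2 : ((k : ℝ) + 2 - 2) ^ 3 ≤ (k + 2) * (k + 1) * k := by
    have : (0 : ℝ) ≤ k := Nat.cast_nonneg k
    nlinarith [mul_nonneg this this, mul_nonneg (mul_nonneg this this) this]
  linarith

/-- the sharp lower bound, near the Koebe function -/
theorem lower {n : ℕ} (hn : 2 ≤ n) {δ c : ℝ} (hδ : 0 < δ)
    (hc : ∀ f, InS f → 0 < ((2 : ℂ) - coeff 2 f).re → ((2 : ℂ) - coeff 2 f).re < δ →
      |((n : ℂ) - coeff n f).re| ≤ c * ((2 : ℂ) - coeff 2 f).re) (hc0 : 0 ≤ c) :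
    1 / 4 * (n : ℝ) ^ 3 * Real.log n - 3 * (n : ℝ) ^ 3 * √(Real.log n) ≤ c := by
  have hn2 : (2 : ℝ) ≤ n := by exact_mod_cast hn
  have hlog0 : 0 ≤ Real.log n := Real.log_nonneg (by linarith)
  set s := √(Real.log n) with hs
  have hs0 : 0 ≤ s := Real.sqrt_nonneg _
  have hs2 : s ^ 2 = Real.log n := Real.sq_sqrt hlog0
  rw [← hs2]
  rcases le_or_gt s 12 with h12 | h12
  · have h1 : 1 / 4 * (n : ℝ) ^ 3 * s ^ 2 - 3 * (n : ℝ) ^ 3 * s = (n : ℝ) ^ 3 * s * (s / 4 - 3) := by ring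
    have h2 : (n : ℝ) ^ 3 * s * (s / 4 - 3) ≤ 0 :=
      mul_nonpos_of_nonneg_of_nonpos (by positivity) (by linarith)
    linarith
  · have hsn : s ^ 2 ≤ n := by
      rw [hs2]
      have := Real.log_le_sub_one_of_pos (show (0 : ℝ) < n by linarith)
      linarith
    set J : ℕ := ⌊(n : ℝ) / s⌋₊ with hJ
    have hJ1 : (J : ℝ) ≤ n / s := Nat.floor_le (by positivity)
    have hJ2 : (n : ℝ) / s < J + 1 := Nat.lt_floor_add_one _
    have hJ3 : (J : ℝ) * s ≤ n := by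
      rw [le_div_iff₀ (by linarith)] at hJ1
      exact hJ1
    have hJn : 2 * J + 3 ≤ n := by
      have h1 : (J : ℝ) * 12 ≤ n := by nlinarith [(Nat.cast_nonneg J : (0 : ℝ) ≤ J)]
      have h2 : (12 : ℝ) * 12 ≤ n := by nlinarith
      have h3 : (2 * (J : ℝ) + 3) ≤ n := by linarith
      exact_mod_cast h3
    have hfam := family hn hJn hδ hc
    have hsum := sum_qs_ge (J := J) hn
    have hms := ms_le hn
    have hch := choose_ge (m := n - 2 * J) (by omega)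
    have hcast : (((n - 2 * J : ℕ)) : ℝ) = n - 2 * J := by
      rw [Nat.cast_sub (by omega)]
      push_cast
      ring
    rw [hcast] at hch
    have hnpos : (0 : ℝ) < n := by linarith
    have hspos : 0 < s := by linarith
    -- log (J + 2) ≥ s² - log s
    have hlogJ : s ^ 2 - (s - 1) ≤ Real.log (J + 2) := by
      have h1 : Real.log (n / s) ≤ Real.log (J + 2) :=
        Real.log_le_log (by positivity) (by linarith)
      rw [Real.log_div hnpos.ne' hspos.ne', ← hs2] at h1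
      have := Real.log_le_sub_one_of_pos hspos
      linarith
    have hJn2 : 2 * ((J : ℝ) + 1) / n ≤ 1 := by
      rw [div_le_one hnpos]
      nlinarith [(Nat.cast_nonneg J : (0 : ℝ) ≤ J)]
    have hS : s ^ 2 - s ≤ ∑ i ∈ Finset.range (J + 1), qs (1 - 1 / n) i := by linarith
    have hS0 : 0 ≤ s ^ 2 - s := by nlinarith
    have hS2 : (s ^ 2 - s) ^ 2 ≤ (∑ i ∈ Finset.range (J + 1), qs (1 - 1 / n) i) ^ 2 := by gcongr
    -- choose
    have hnJ : (n : ℝ) * (1 - 3 / s) ≤ n - 2 * J - 2 := by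
      have h1 : (n : ℝ) * (1 - 3 / s) = n - 3 * (n / s) := by ring
      rw [h1]
      have h2 : 2 ≤ (n : ℝ) / s := by
        rw [le_div_iff₀ hspos]
        nlinarith
      linarith
    have h3s : 0 ≤ 1 - 3 / s := by
      rw [sub_nonneg, div_le_one hspos]; linarith
    have hch2 : ((n : ℝ) * (1 - 3 / s)) ^ 3 / 6 ≤ ((n - 2 * J).choose 3 : ℝ) := by
      refine le_trans ?_ hch
      gcongr
    have hch0 : 0 ≤ ((n : ℝ) * (1 - 3 / s)) ^ 3 / 6 := by positivity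
    have hB : 3 * (s ^ 2 - s) ^ 2 * (((n : ℝ) * (1 - 3 / s)) ^ 3 / 6) ≤
        c * (2 * (s ^ 2 + 2)) := by
      refine le_trans ?_ (hfam.trans ?_)
      · gcongr
      · rw [hs2]
        gcongr
    -- algebra with u = 1 / s
    have hu : ∃ u : ℝ, u = 1 / s ∧ 0 < u ∧ u ≤ 1 / 12 ∧ u * s = 1 := by
      refine ⟨1 / s, rfl, by positivity, ?_, by field_simp⟩
      apply one_div_le_one_div_of_le (by norm_num) h12.le
    obtain ⟨u, hu1, hu0, hu12, hus⟩ := hu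
    have e1 : (s ^ 2 - s) = s ^ 2 * (1 - u) := by
      have : s ^ 2 * (1 - u) = s ^ 2 - s * (u * s) := by ring
      rw [this, hus]; ring
    have e2 : 1 - 3 / s = 1 - 3 * u := by rw [hu1]; ring
    have e3 : s ^ 2 + 2 = s ^ 2 * (1 + 2 * u ^ 2) := by
      have : s ^ 2 * (1 + 2 * u ^ 2) = s ^ 2 + 2 * (u * s) ^ 2 := by ring
      rw [this, hus]; ring
    have e4 : 1 / 4 * (n : ℝ) ^ 3 * s ^ 2 - 3 * (n : ℝ) ^ 3 * s = 1 / 4 * (n : ℝ) ^ 3 * s ^ 2 * (1 - 12 * u) := by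
      have : 1 / 4 * (n : ℝ) ^ 3 * s ^ 2 * (1 - 12 * u) =
        1 / 4 * (n : ℝ) ^ 3 * s ^ 2 - 3 * (n : ℝ) ^ 3 * s * (u * s) := by ring
      rw [this, hus]; ring
    rw [e1, e2, e3] at hB
    rw [e4]
    have hs2p : 0 < s ^ 2 := by positivity
    -- (1 - 12 u)(1 + 2 u²) ≤ (1 - u)² (1 - 3 u)³
    have hpoly : (1 - 12 * u) * (1 + 2 * u ^ 2) ≤ (1 - u) ^ 2 * (1 - 3 * u) ^ 3 := by
      have h1 : 1 - 2 * u ≤ (1 - u) ^ 2 := by nlinarith [sq_nonneg u]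
      have h2 : 1 - 9 * u ≤ (1 - 3 * u) ^ 3 := by
        have : (1 - 3 * u) ^ 3 - (1 - 9 * u) = 27 * u ^ 2 * (1 - u) := by ring
        have h3 : 0 ≤ 27 * u ^ 2 * (1 - u) := mul_nonneg (by positivity) (by linarith)
        linarith
      have h3 : (1 - 2 * u) * (1 - 9 * u) ≤ (1 - u) ^ 2 * (1 - 3 * u) ^ 3 :=
        mul_le_mul h1 h2 (by linarith) (by positivity)
      refine le_trans ?_ h3
      have h4 : (1 - 2 * u) * (1 - 9 * u) - (1 - 12 * u) * (1 + 2 * u ^ 2) = u + 16 * u ^ 2 + 24 * u ^ 3 := by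
        ring
      have h5 : 0 ≤ u + 16 * u ^ 2 + 24 * u ^ 3 := by positivity
      linarith
    have h6 : 1 / 2 * (n : ℝ) ^ 3 * (s ^ 2) ^ 2 * ((1 - 12 * u) * (1 + 2 * u ^ 2)) ≤
        c * (2 * (s ^ 2 * (1 + 2 * u ^ 2))) := by
      refine le_trans ?_ hB
      have h7 : 3 * (s ^ 2 * (1 - u)) ^ 2 * (((n : ℝ) * (1 - 3 * u)) ^ 3 / 6) =
          1 / 2 * (n : ℝ) ^ 3 * (s ^ 2) ^ 2 * ((1 - u) ^ 2 * (1 - 3 * u) ^ 3) := by ring
      rw [h7]
      apply mul_le_mul_of_nonneg_left hpoly (by positivity)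
    have h8 : (2 * (s ^ 2 * (1 + 2 * u ^ 2))) * (1 / 4 * (n : ℝ) ^ 3 * s ^ 2 * (1 - 12 * u)) ≤
        (2 * (s ^ 2 * (1 + 2 * u ^ 2))) * c := by
      calc (2 * (s ^ 2 * (1 + 2 * u ^ 2))) * (1 / 4 * (n : ℝ) ^ 3 * s ^ 2 * (1 - 12 * u))
          = 1 / 2 * (n : ℝ) ^ 3 * (s ^ 2) ^ 2 * ((1 - 12 * u) * (1 + 2 * u ^ 2)) := by ring
        _ ≤ _ := h6
        _ = _ := by ring
    exact le_of_mul_le_mul_left h8 (by positivity)

end Pool.Agent.H193.Bom
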